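import Mathlib

set_option autoImplicit false

/-!
# CJB_ASP: the map `(s, t) ↦ s ^ 2 + s + t` is onto for fields with `2 ^ p` elements, `p` odd
-/

namespace Pool.Agent.CJB

namespace ASPx

/-- the additive map -/
def f (F : Type) [Field F] [Algebra (ZMod 2) F] (h2 : (2 : F) = 0) : F × ZMod 2 →+ F where
  toFun x := x.1 ^ 2 + x.1 + algebraMap (ZMod 2) F x.2
  map_zero' := by simp
  map_add' x y := by
    simp only [Prod.fst_add, Prod.snd_add, map_add]
    linear_combination (x.1 * y.1) * h2

lemma zmod_sq (t : ZMod 2) : t ^ 2 = t := by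
  revert t
  decide

lemma no_root (p : ℕ) (hp : Odd p) (F : Type) [Field F] [Fintype F]
    (hF : Fintype.card F = 2 ^ p) (h2 : (2 : F) = 0) (s : F) : s ^ 2 + s + 1 ≠ 0 := by
  intro h
  have h3 : s ^ 3 = 1 := by linear_combination (s - 1) * h
  have hs1 : s ≠ 1 := by
    intro h1
    rw [h1] at h
    have h4 : (1 : F) = 0 := by linear_combination h - h2
    exact one_ne_zero h4
  have hs0 : s ≠ 0 := by
    intro h1
    rw [h1] at h
    norm_num at h
  have hu : (Units.mk0 s hs0) ^ 3 = 1 := by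
    ext
    push_cast
    exact h3
  have ho : orderOf (Units.mk0 s hs0) = 3 := by
    have : Fact (Nat.Prime 3) := ⟨by norm_num⟩
    apply orderOf_eq_prime hu
    intro h4
    apply hs1
    have h5 := congrArg Units.val h4
    simpa using h5
  classical
  have hd : orderOf (Units.mk0 s hs0) ∣ Fintype.card Fˣ := orderOf_dvd_card
  rw [ho, Fintype.card_units, hF] at hd
  obtain ⟨k, rfl⟩ := hp
  have h6 : 2 ^ (2 * k + 1) % 3 = 2 := by
    rw [pow_succ, pow_mul, Nat.mul_mod, Nat.pow_mod]
    norm_num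
  have h7 : 1 ≤ 2 ^ (2 * k + 1) := Nat.one_le_two_pow
  clear hF
  generalize 2 ^ (2 * k + 1) = q at hd h6 h7
  omega

lemma surj (p : ℕ) (hp : Odd p) (F : Type) [Field F] [Fintype F] [Algebra (ZMod 2) F]
    (hF : Fintype.card F = 2 ^ p) (h2 : (2 : F) = 0) : Function.Surjective (f F h2) := by
  classical
  have hker : Nat.card (f F h2).ker = 2 := by
    have h1 : ((f F h2).ker : Set (F × ZMod 2)) = {(0, 0), (1, 0)} := by
      ext ⟨s, t⟩
      rw [SetLike.mem_coe, AddMonoidHom.mem_ker]
      show s ^ 2 + s + algebraMap (ZMod 2) F t = 0 ↔ _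
      have ht : t = 0 ∨ t = 1 := by
        revert t
        decide
      rcases ht with rfl | rfl
      · rw [map_zero, add_zero, Set.mem_insert_iff, Set.mem_singleton_iff]
        constructor
        · intro h
          have h3 : s * (s + 1) = 0 := by linear_combination h
          rcases mul_eq_zero.1 h3 with h4 | h4
          · left; rw [h4]
          · right
            have h5 : s = 1 := by linear_combination h4 - h2
            rw [h5]
        · rintro (h | h)
          · rw [(Prod.mk.inj h).1]; ring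
          · rw [(Prod.mk.inj h).1]
            linear_combination h2
      · rw [map_one]
        constructor
        · intro h
          exact absurd h (no_root p hp F hF h2 s)
        · rintro (h | h)
          · exact absurd (Prod.mk.inj h).2 one_ne_zero
          · exact absurd (Prod.mk.inj h).2 one_ne_zero
    have h3 : Nat.card (f F h2).ker = ((f F h2).ker : Set (F × ZMod 2)).ncard := rfl
    rw [h3, h1, Set.ncard_pair]
    intro h
    exact one_ne_zero (Prod.mk.inj h).1.symm
  have h1 := AddSubgroup.card_eq_card_quotient_mul_card_addSubgroup (f F h2).ker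
  have h3 : Nat.card ((F × ZMod 2) ⧸ (f F h2).ker) = Nat.card (f F h2).range :=
    Nat.card_congr (QuotientAddGroup.quotientKerEquivRange (f F h2)).toEquiv
  have h4 : Nat.card (F × ZMod 2) = 2 ^ p * 2 := by
    rw [Nat.card_prod, Nat.card_eq_fintype_card, hF, Nat.card_eq_fintype_card, ZMod.card]
  rw [h4, h3, hker] at h1
  have h5 : Nat.card (f F h2).range = Nat.card F := by
    rw [Nat.card_eq_fintype_card (α := F), hF]
    omega
  have h6 : (f F h2).range = ⊤ := AddSubgroup.eq_top_of_card_eq _ h5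
  exact AddMonoidHom.range_eq_top.1 h6

end ASPx

theorem asparam (p l : ℕ) (hp : Odd p) (F : Type) [Field F] [Fintype F] [Algebra (ZMod 2) F]
    (hF : Fintype.card F = 2 ^ p) (W : (Fin l → F) → Prop) :
    Nat.card {ρ : Fin l → F // W ρ} * 2 ^ l ≤
      Nat.card {s : (Fin l → F) × (Fin l → ZMod 2) //
        W (fun j => s.1 j ^ 2 + s.1 j + algebraMap (ZMod 2) F (s.2 j))} := by
  classical
  have h2 : (2 : F) = 0 := by
    have h : algebraMap (ZMod 2) F 2 = 0 := by
      have : (2 : ZMod 2) = 0 := rfl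
      rw [this, map_zero]
    rwa [map_ofNat] at h
  have hs := ASPx.surj p hp F hF h2
  choose σ hσ using hs
  have hσ' : ∀ x : F, (σ x).1 ^ 2 + (σ x).1 + algebraMap (ZMod 2) F (σ x).2 = x := hσ
  have hcard : Nat.card (Fin l → ZMod 2) = 2 ^ l := by
    rw [Nat.card_eq_fintype_card, Fintype.card_fun, ZMod.card, Fintype.card_fin]
  rw [← hcard, ← Nat.card_prod]
  have key : ∀ (ρ : Fin l → F) (δ : Fin l → ZMod 2) (j : Fin l),
      ((σ (ρ j)).1 + algebraMap (ZMod 2) F (δ j)) ^ 2 +
        ((σ (ρ j)).1 + algebraMap (ZMod 2) F (δ j)) +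
        algebraMap (ZMod 2) F (σ (ρ j)).2 = ρ j := by
    intro ρ δ j
    have h3 : (algebraMap (ZMod 2) F (δ j)) ^ 2 = algebraMap (ZMod 2) F (δ j) := by
      rw [← map_pow, ASPx.zmod_sq]
    have h4 := hσ' (ρ j)
    linear_combination h4 + h3 + ((σ (ρ j)).1 * algebraMap (ZMod 2) F (δ j) +
      algebraMap (ZMod 2) F (δ j)) * h2
  have hfin : Finite {s : (Fin l → F) × (Fin l → ZMod 2) //
        W (fun j => s.1 j ^ 2 + s.1 j + algebraMap (ZMod 2) F (s.2 j))} := inferInstance
  refine Nat.card_le_card_of_injective (fun x : {ρ : Fin l → F // W ρ} × (Fin l → ZMod 2) =>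
    (⟨(fun j => (σ (x.1.1 j)).1 + algebraMap (ZMod 2) F (x.2 j), fun j => (σ (x.1.1 j)).2), by
      have h3 : (fun j => ((σ (x.1.1 j)).1 + algebraMap (ZMod 2) F (x.2 j)) ^ 2 +
        ((σ (x.1.1 j)).1 + algebraMap (ZMod 2) F (x.2 j)) +
        algebraMap (ZMod 2) F (σ (x.1.1 j)).2) = x.1.1 := funext fun j => key x.1.1 x.2 j
      show W (fun j => ((σ (x.1.1 j)).1 + algebraMap (ZMod 2) F (x.2 j)) ^ 2 +
        ((σ (x.1.1 j)).1 + algebraMap (ZMod 2) F (x.2 j)) +
        algebraMap (ZMod 2) F (σ (x.1.1 j)).2)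
      rw [h3]
      exact x.1.2⟩ : {s : (Fin l → F) × (Fin l → ZMod 2) //
        W (fun j => s.1 j ^ 2 + s.1 j + algebraMap (ZMod 2) F (s.2 j))})) ?_
  rintro ⟨⟨ρ, hρ⟩, δ⟩ ⟨⟨ρ', hρ'⟩, δ'⟩ h
  have h3 := Subtype.ext_iff.1 h
  have h4 := (Prod.mk.inj h3).1
  have h5 := (Prod.mk.inj h3).2
  have h6 : ρ = ρ' := by
    funext j
    have a1 := key ρ δ j
    have a2 := key ρ' δ' j
    have b1 := congrFun h4 j
    have b2 := congrFun h5 j
    simp only at b1 b2
    rw [b1, b2] at a1
    exact a1.symm.trans a2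
  subst h6
  have h7 : δ = δ' := by
    funext j
    have b1 := congrFun h4 j
    simp only at b1
    exact (algebraMap (ZMod 2) F).injective (add_left_cancel b1)
  subst h7
  rfl

end Pool.Agent.CJB
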