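import Pool.Agent.CJB.Defs2

/-! The number of bad primes (module CJB_BAD). -/

namespace Pool.Agent.CJB

namespace BADAux

theorem one (B L n : ℕ) (hB : 1 ≤ B) (hn : 64 ≤ n) (hL : 8 * (L + 2) ≤ n) (N : ℤ) (hN : N ≠ 0)
    (hNB : N.natAbs ≤ 2 ^ B + L + 1) :
    ((N.natAbs.primeFactors.filter (fun p => n ≤ 4 * p)).card : ℝ) * Real.log n ≤ 3 * B := by
  set s := N.natAbs.primeFactors.filter (fun p => n ≤ 4 * p) with hs
  have hB0 : (1 : ℝ) ≤ B := by exact_mod_cast hB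
  rcases s.eq_empty_or_nonempty with h0 | ⟨p, hp⟩
  · rw [h0]; simp
  have hNpos : 0 < N.natAbs := Int.natAbs_pos.2 hN
  have hn0 : (64 : ℝ) ≤ n := by exact_mod_cast hn
  -- size of `2^B`
  have hp' := Finset.mem_filter.1 hp
  have hple : p ≤ N.natAbs := Nat.le_of_dvd hNpos (Nat.dvd_of_mem_primeFactors hp'.1)
  have h1 : n ≤ 4 * p := hp'.2
  have h2 : L + 1 ≤ 2 ^ B := by omega
  have h3 : N.natAbs ≤ 2 ^ (B + 1) := by rw [pow_succ]; omega
  -- the product
  have h4 : ((n : ℝ) / 4) ^ s.card ≤ ∏ q ∈ s, (q : ℝ) := by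
    rw [← Finset.prod_const]
    refine Finset.prod_le_prod (fun i _ => by positivity) (fun q hq => ?_)
    have : n ≤ 4 * q := (Finset.mem_filter.1 hq).2
    have h5 : (n : ℝ) ≤ 4 * q := by exact_mod_cast this
    linarith
  have h6 : ∏ q ∈ s, q ≤ N.natAbs := by
    refine le_trans ?_ (Nat.le_of_dvd hNpos (Nat.prod_primeFactors_dvd _))
    refine Finset.prod_le_prod_of_subset_of_one_le' (Finset.filter_subset _ _) (fun i hi _ => ?_)
    exact (Nat.prime_of_mem_primeFactors hi).one_lt.le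
  have h7 : ((n : ℝ) / 4) ^ s.card ≤ (2 : ℝ) ^ (B + 1) := by
    refine h4.trans ?_
    have : ((∏ q ∈ s, q : ℕ) : ℝ) ≤ ((2 ^ (B + 1) : ℕ) : ℝ) := by exact_mod_cast h6.trans h3
    push_cast at this
    exact this
  have h8 : (s.card : ℝ) * Real.log ((n : ℝ) / 4) ≤ ((B : ℝ) + 1) * Real.log 2 := by
    have := Real.log_le_log (by positivity) h7
    rw [Real.log_pow, Real.log_pow] at this
    push_cast at this
    exact this
  have h9 : 2 / 3 * Real.log n ≤ Real.log ((n : ℝ) / 4) := by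
    rw [Real.log_div (by positivity) (by norm_num)]
    have h10 : Real.log 64 ≤ Real.log n := Real.log_le_log (by norm_num) hn0
    have h11 : Real.log 64 = 3 * Real.log 4 := by
      rw [show (64 : ℝ) = 4 ^ 3 by norm_num, Real.log_pow]; norm_num
    linarith
  have hlog2 : Real.log 2 ≤ 1 := by
    have := Real.log_two_lt_d9
    linarith
  have hlog2' : 0 ≤ Real.log 2 := Real.log_nonneg (by norm_num)
  have h12 : (s.card : ℝ) * (2 / 3 * Real.log n) ≤ ((B : ℝ) + 1) * Real.log 2 :=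
    (mul_le_mul_of_nonneg_left h9 (Nat.cast_nonneg _)).trans h8
  have h13 : ((B : ℝ) + 1) * Real.log 2 ≤ 2 * B := by
    have : ((B : ℝ) + 1) * Real.log 2 ≤ ((B : ℝ) + 1) * 1 :=
      mul_le_mul_of_nonneg_left hlog2 (by positivity)
    linarith
  have h14 : (s.card : ℝ) * (2 / 3 * Real.log n) = 2 / 3 * ((s.card : ℝ) * Real.log n) := by ring
  rw [h14] at h12
  linarith

end BADAux

theorem card_bad : ∃ C : ℝ, ∀ (E : Finset ℕ) (k L B n : ℕ), 1 ≤ k → 1 ≤ L → 1 ≤ B → 64 ≤ n →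
    8 * (L + 2) ≤ n → E.card ≤ 2 * k → (∀ e ∈ E, e ≤ 2 ^ B) →
    (Nat.card {p : ℕ // p.Prime ∧ n ≤ 4 * p ∧ p ≤ n ∧ ¬ Good E L p} : ℝ) * Real.log n ≤
      C * k ^ 2 * L * B := by
  classical
  refine ⟨36, ?_⟩
  intro E k L B n hk hL hB hn hLn hE hEB
  let G : ℕ × ℕ × ℕ → Finset ℕ := fun x =>
    if (x.2.1 : ℤ) - x.1 - x.2.2 = 0 then ∅
    else ((x.2.1 : ℤ) - x.1 - x.2.2).natAbs.primeFactors.filter (fun p => n ≤ 4 * p)
  let T : Finset (ℕ × ℕ × ℕ) := E ×ˢ (E ×ˢ Finset.range (L + 2))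
  have hsub : ∀ p : ℕ, (p.Prime ∧ n ≤ 4 * p ∧ p ≤ n ∧ ¬ Good E L p) → p ∈ T.biUnion G := by
    rintro p ⟨hp, h1, h2, h3⟩
    unfold Good at h3
    push Not at h3
    obtain ⟨a, ha, b, hb, t, ht, hd, hne⟩ := h3
    rw [Finset.mem_biUnion]
    refine ⟨(a, b, t), ?_, ?_⟩
    · exact Finset.mem_product.2 ⟨ha, Finset.mem_product.2 ⟨hb, Finset.mem_range.2 (show t < L + 2 by omega)⟩⟩
    · have hN : (b : ℤ) - a - t ≠ 0 := by
        intro h; apply hne; linarith
      show p ∈ (if (b : ℤ) - a - t = 0 then ∅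
        else ((b : ℤ) - a - t).natAbs.primeFactors.filter (fun p => n ≤ 4 * p))
      rw [if_neg hN, Finset.mem_filter, Nat.mem_primeFactors]
      refine ⟨⟨hp, ?_, ?_⟩, h1⟩
      · exact Int.natCast_dvd.1 hd
      · exact (Int.natAbs_pos.2 hN).ne'
  have hcard : Nat.card {p : ℕ // p.Prime ∧ n ≤ 4 * p ∧ p ≤ n ∧ ¬ Good E L p} ≤
      (T.biUnion G).card := by
    have h1 : Nat.card {p : ℕ // p ∈ T.biUnion G} = (T.biUnion G).card := by
      rw [Nat.card_eq_fintype_card, Fintype.card_coe]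
    rw [← h1]
    exact Nat.card_le_card_of_injective (fun p => (⟨p.1, hsub p.1 p.2⟩ : {p : ℕ // p ∈ T.biUnion G}))
      (fun x y h => Subtype.ext (by simpa using h))
  have hcard2 : (T.biUnion G).card ≤ ∑ x ∈ T, (G x).card := Finset.card_biUnion_le
  have hlog : 0 ≤ Real.log n := Real.log_natCast_nonneg n
  have hone : ∀ x ∈ T, ((G x).card : ℝ) * Real.log n ≤ 3 * B := by
    rintro ⟨a, b, t⟩ hx
    have hx1 := Finset.mem_product.1 hx
    have hx2 := Finset.mem_product.1 hx1.2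
    have ha := hEB a hx1.1
    have hb := hEB b hx2.1
    have ht := Finset.mem_range.1 hx2.2
    simp only at ha hb ht
    show ((if (b : ℤ) - a - t = 0 then ∅
        else ((b : ℤ) - a - t).natAbs.primeFactors.filter (fun p => n ≤ 4 * p) : Finset ℕ).card : ℝ) *
        Real.log n ≤ 3 * B
    split_ifs with h
    · simp
    · refine BADAux.one B L n hB hn hLn _ h ?_
      have hb' : (b : ℤ) ≤ 2 ^ B := by exact_mod_cast hb
      have ha' : (a : ℤ) ≤ 2 ^ B := by exact_mod_cast ha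
      have : (((2 : ℕ) ^ B : ℕ) : ℤ) = 2 ^ B := by push_cast; rfl
      omega
  have hTcard : (T.card : ℝ) ≤ 12 * k ^ 2 * L := by
    have h1 : T.card = E.card * (E.card * (L + 2)) := by
      simp only [T, Finset.card_product, Finset.card_range]
    have h2 : T.card ≤ (2 * k) * ((2 * k) * (3 * L)) := by
      rw [h1]
      exact Nat.mul_le_mul hE (Nat.mul_le_mul hE (by omega))
    have h3 : (T.card : ℝ) ≤ (2 * k) * ((2 * k) * (3 * L)) := by exact_mod_cast h2
    linarith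
  calc (Nat.card {p : ℕ // p.Prime ∧ n ≤ 4 * p ∧ p ≤ n ∧ ¬ Good E L p} : ℝ) * Real.log n
      ≤ ((∑ x ∈ T, (G x).card : ℕ) : ℝ) * Real.log n := by
        refine mul_le_mul_of_nonneg_right ?_ hlog
        exact_mod_cast hcard.trans hcard2
    _ = ∑ x ∈ T, ((G x).card : ℝ) * Real.log n := by
        rw [Nat.cast_sum, Finset.sum_mul]
    _ ≤ ∑ _x ∈ T, (3 * (B : ℝ)) := Finset.sum_le_sum hone
    _ = T.card * (3 * (B : ℝ)) := by rw [Finset.sum_const, nsmul_eq_mul]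
    _ ≤ (12 * k ^ 2 * L) * (3 * (B : ℝ)) := mul_le_mul_of_nonneg_right hTcard (by positivity)
    _ = 36 * k ^ 2 * L * B := by ring

end Pool.Agent.CJB
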