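import Pool.Agent.CJB.Defs2

/-!
# Baby steps and giant steps
-/

namespace Pool.Agent.CJB
open Polynomial

namespace BSGAux

/-- gates first -/
def gatesThen : List Gate → Alg → Alg
  | [], A => A
  | c :: l, A => Alg.gate c (gatesThen l A)

/-- a list of tests -/
def tests : List (MvPolynomial ℕ (ZMod 2)) → Alg
  | [] => Alg.stop
  | P :: l => Alg.test P (tests l) (tests l)

theorem within_tests (L B R k : ℕ) (ps : List (MvPolynomial ℕ (ZMod 2)))
    (h : ∀ P ∈ ps, P.totalDegree ≤ 2 ^ L) : Within L B R k ps.length (tests ps) := by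
  induction ps with
  | nil => trivial
  | cons P ps ih =>
    have ih' := ih fun Q hQ => h Q (List.mem_cons_of_mem _ hQ)
    exact ⟨h P List.mem_cons_self, ps.length, List.length_cons, ih', ih'⟩

theorem within_gates (L B R T k : ℕ) (A : Alg) (hA : Within L B R k T A) (gs : List Gate)
    (h : ∀ c ∈ gs, c.base ≤ R ∧ c.size < 2 ^ B) :
    Within L B R (gs.length + k) T (gatesThen gs A) := by
  induction gs with
  | nil =>
    rw [List.length_nil, zero_add]
    exact hA
  | cons c gs ih =>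
    have ih' := ih fun c' hc => h c' (List.mem_cons_of_mem _ hc)
    refine ⟨(h c List.mem_cons_self).1, (h c List.mem_cons_self).2, gs.length + k, ?_, ih'⟩
    rw [List.length_cons]
    omega

theorem finds_gates (f : (ZMod 2)[X]) (y : ℕ → (ZMod 2)[X]) (A : Alg) (l : List Gate) :
    ∀ gs : List Gate, Finds f y (gs ++ l) A → Finds f y gs (gatesThen l A) := by
  induction l with
  | nil =>
    intro gs h
    rw [List.append_nil] at h
    exact h
  | cons c l ih =>
    intro gs h
    apply ih (gs ++ [c])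
    rw [List.append_assoc]
    exact h

theorem finds_tests (f : (ZMod 2)[X]) (y : ℕ → (ZMod 2)[X]) (gs : List Gate)
    (P : MvPolynomial ℕ (ZMod 2)) (h1 : ¬ f ∣ value y gs P) (h2 : ¬ IsCoprime f (value y gs P))
    (ps : List (MvPolynomial ℕ (ZMod 2))) (hP : P ∈ ps) : Finds f y gs (tests ps) := by
  induction ps with
  | nil => exact absurd hP List.not_mem_nil
  | cons Q ps ih =>
    rcases List.mem_cons.1 hP with rfl | hP'
    · exact Or.inr (Or.inr ⟨h1, h2⟩)
    · have ih' := ih hP'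
      by_cases a : f ∣ value y gs Q
      · exact Or.inl ⟨a, ih'⟩
      · by_cases b : IsCoprime f (value y gs Q)
        · exact Or.inr (Or.inl ⟨b, ih'⟩)
        · exact Or.inr (Or.inr ⟨a, b⟩)

/-- the gates: baby steps and giant steps -/
def gts (m : ℕ) : List Gate :=
  (List.range m).map (fun i => Gate.conj 0 i) ++ (List.range m).map (fun j => Gate.conj 0 (m * (j + 1)))

/-- the tests -/
noncomputable def tst (m : ℕ) : List (MvPolynomial ℕ (ZMod 2)) :=
  (List.range m ×ˢ List.range m).map fun a =>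
    MvPolynomial.X (m + a.2) - MvPolynomial.X a.1

theorem length_gts (m : ℕ) : (gts m).length = 2 * m := by
  rw [gts, List.length_append, List.length_map, List.length_map, List.length_range]
  omega

theorem length_tst (m : ℕ) : (tst m).length = m ^ 2 := by
  rw [tst, List.length_map, List.length_product, List.length_range, sq]

theorem value_tst (m : ℕ) (y : ℕ → (ZMod 2)[X]) (i j : ℕ) (hi : i < m) (hj : j < m) :
    value y (gts m) (MvPolynomial.X (m + j) - MvPolynomial.X i) =
      y 0 ^ 2 ^ (m * (j + 1)) - y 0 ^ 2 ^ i := by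
  have e1 : ((gts m).map (Gate.val y)).getD i 0 = y 0 ^ 2 ^ i := by
    rw [gts, List.map_append, List.getD_append _ _ _ _ (by simpa using hi)]
    simp [hi, Gate.val]
  have e2 : ((gts m).map (Gate.val y)).getD (m + j) 0 = y 0 ^ 2 ^ (m * (j + 1)) := by
    rw [gts, List.map_append, List.getD_append_right _ _ _ _ (by simp)]
    simp [hj, Gate.val]
  rw [value, map_sub, MvPolynomial.aeval_X, MvPolynomial.aeval_X, e1, e2]

theorem main (n : ℕ) (g h : (ZMod 2)[X]) (hg : Irreducible g) (hh : Irreducible h)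
    (hlt : g.natDegree < h.natDegree) (m : ℕ) (hm : g.natDegree ≤ m ^ 2) :
    ∃ i < m, ∃ j < m, g ∣ (X : (ZMod 2)[X]) ^ 2 ^ (m * (j + 1)) - X ^ 2 ^ i ∧
      ¬ h ∣ (X : (ZMod 2)[X]) ^ 2 ^ (m * (j + 1)) - X ^ 2 ^ i := by
  have hd : 0 < g.natDegree := hg.natDegree_pos
  have hm0 : 0 < m := by
    rcases Nat.eq_zero_or_pos m with rfl | h
    · simp at hm
      omega
    · exact h
  have hc : Nat.card (ZMod 2) = 2 := Nat.card_zmod 2
  have hgd := (hg.natDegree_dvd_iff_dvd_X_pow_card_pow_sub_X (n := g.natDegree)).1 dvd_rfl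
  rw [hc] at hgd
  have hhd : ¬ h ∣ (X : (ZMod 2)[X]) ^ 2 ^ g.natDegree - X := by
    intro h1
    have h2 := (hh.natDegree_dvd_iff_dvd_X_pow_card_pow_sub_X (n := g.natDegree)).2
      (by rw [hc]; exact h1)
    exact absurd (Nat.le_of_dvd hd h2) (by omega)
  generalize g.natDegree = d at *
  -- `d = m (j + 1) - i`
  obtain ⟨j, i, hi, hj, hdij⟩ : ∃ j i, i < m ∧ j < m ∧ d + i = m * (j + 1) := by
    refine ⟨(d - 1) / m, m - 1 - (d - 1) % m, by omega, ?_, ?_⟩
    · rw [Nat.div_lt_iff_lt_mul hm0]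
      rw [sq] at hm
      omega
    · have h1 := Nat.div_add_mod (d - 1) m
      have h2 := Nat.mod_lt (d - 1) hm0
      rw [mul_add, mul_one]
      omega
  refine ⟨i, hi, j, hj, ?_⟩
  have e : (X : (ZMod 2)[X]) ^ 2 ^ (m * (j + 1)) - X ^ 2 ^ i = (X ^ 2 ^ d - X) ^ 2 ^ i := by
    rw [sub_pow_char_pow, ← pow_mul, ← pow_add, hdij]
  rw [e]
  constructor
  · exact dvd_pow hgd (by positivity)
  · intro h1
    exact hhd (hh.prime.dvd_of_dvd_pow h1)

theorem ineq (n : ℕ) (hn : 2 ≤ n) : (Nat.sqrt n + 1) ^ 2 < 2 ^ (Nat.log 2 n + 3) := by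
  have h1 : 1 ≤ Nat.sqrt n := by
    rw [Nat.le_sqrt]
    omega
  have h2 : Nat.sqrt n * Nat.sqrt n ≤ n := Nat.sqrt_le n
  have h3 : n < 2 ^ (Nat.log 2 n + 1) := Nat.lt_pow_succ_log_self (by norm_num) n
  have h4 : 2 ^ (Nat.log 2 n + 3) = 4 * 2 ^ (Nat.log 2 n + 1) := by
    rw [pow_add, pow_add]
    ring
  rw [h4]
  nlinarith

theorem find (n : ℕ) (g h : (ZMod 2)[X]) (hg : Irreducible g) (hh : Irreducible h)
    (hlt : g.natDegree < h.natDegree) (hn : g.natDegree + h.natDegree = n)
    (f : (ZMod 2)[X]) (hf : f = g * h) (y : ℕ → (ZMod 2)[X]) (hy : y 0 = X) :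
    Finds f y [] (gatesThen (gts (Nat.sqrt n + 1)) (tests (tst (Nat.sqrt n + 1)))) := by
  apply finds_gates
  rw [List.nil_append]
  have hm : g.natDegree ≤ (Nat.sqrt n + 1) ^ 2 := by
    have := Nat.lt_succ_sqrt n
    rw [sq]
    rw [Nat.succ_eq_add_one] at this
    omega
  obtain ⟨i, hi, j, hj, h1, h2⟩ := main n g h hg hh hlt (Nat.sqrt n + 1) hm
  refine finds_tests f y _ (MvPolynomial.X (Nat.sqrt n + 1 + j) - MvPolynomial.X i) ?_ ?_ _ ?_
  · rw [value_tst _ _ _ _ hi hj, hy, hf]
    intro h3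
    exact h2 ((dvd_mul_left h g).trans h3)
  · rw [value_tst _ _ _ _ hi hj, hy, hf]
    intro h3
    exact hg.not_isUnit (h3.isUnit_of_dvd' (dvd_mul_right g h) h1)
  · rw [tst, List.mem_map]
    refine ⟨(i, j), ?_, rfl⟩
    rw [List.mem_product]
    exact ⟨List.mem_range.2 hi, List.mem_range.2 hj⟩

end BSGAux

/-- CJB_BSG (file BSG.lean). Baby steps `conj 0 i` (`i < m`), giant steps `conj 0 (m * j)`
(`1 ≤ j ≤ m`), `m = √n + 1`; tests `X_giant - X_baby` for all pairs (value
`x^(2^(mj)) - x^(2^i) = (x^(2^(mj-i)) - x)^(2^i)`), in any order; the smaller degree `d < m^2` is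
`mj - i` for one pair; `g ∣ x^(2^N) - x ↔ d ∣ N` (`N ≥ 1`), so at the latest at this pair the value
is divisible by `g` and not by `h` (`deg h > d`). Every test has `zero = unit = ` rest. -/
theorem bsgs (n : ℕ) (hn : 2 ≤ n) : ∃ A : Alg,
    Within 0 (Nat.log 2 n + 3) 0 (2 * (Nat.sqrt n + 1)) ((Nat.sqrt n + 1) ^ 2) A ∧
    ∀ g h : (ZMod 2)[X], Irreducible g → Irreducible h → g.natDegree ≠ h.natDegree →
      g.natDegree + h.natDegree = n →
      ∀ (R : ℕ) (r : Fin R → degreeLT (ZMod 2) n), Finds (g * h) (env r) [] A := by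
  refine ⟨BSGAux.gatesThen (BSGAux.gts (Nat.sqrt n + 1))
    (BSGAux.tests (BSGAux.tst (Nat.sqrt n + 1))), ?_, ?_⟩
  · have h1 := BSGAux.within_tests 0 (Nat.log 2 n + 3) 0 0 (BSGAux.tst (Nat.sqrt n + 1)) ?_
    · rw [BSGAux.length_tst] at h1
      have h2 := BSGAux.within_gates 0 (Nat.log 2 n + 3) 0 _ 0 _ h1
        (BSGAux.gts (Nat.sqrt n + 1)) ?_
      · rw [BSGAux.length_gts, add_zero] at h2
        exact h2
      · intro c hc
        have h3 := BSGAux.ineq n hn
        rw [BSGAux.gts, List.mem_append, List.mem_map, List.mem_map] at hc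
        rcases hc with ⟨i, hi, rfl⟩ | ⟨j, hj, rfl⟩
        · rw [List.mem_range] at hi
          refine ⟨le_rfl, ?_⟩
          change i < _
          nlinarith
        · rw [List.mem_range] at hj
          refine ⟨le_rfl, ?_⟩
          change (Nat.sqrt n + 1) * (j + 1) < _
          refine lt_of_le_of_lt ?_ h3
          rw [sq]
          exact Nat.mul_le_mul_left _ (by omega)
    · intro P hP
      rw [BSGAux.tst, List.mem_map] at hP
      obtain ⟨a, _, rfl⟩ := hP
      rw [pow_zero]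
      refine (MvPolynomial.totalDegree_sub _ _).trans ?_
      rw [MvPolynomial.totalDegree_X, MvPolynomial.totalDegree_X, max_self]
  · intro g h hg hh hne hsum R r
    rcases lt_or_gt_of_ne hne with h1 | h1
    · exact BSGAux.find n g h hg hh h1 hsum _ rfl _ rfl
    · exact BSGAux.find n h g hh hg h1 (by omega) _ (mul_comm g h) _ rfl

end Pool.Agent.CJB
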