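import Mathlib

/-! CJB_CLU: an integer lemma on sums of powers of two. -/

namespace Pool.Agent.CJB

theorem cluster_aux {ι : Type*} [DecidableEq ι] (ε ε' : ι → ℕ) (L : ℕ) (n : ℕ) :
    ∀ (S : Finset ι), S.card = n →
    (∀ a ∈ S, ∀ b ∈ S, ε' a ≤ ε' b → ε' b ≤ ε' a + (L + 1) → ε b = ε a + (ε' b - ε' a)) →
    ∀ u : ι → ℤ, ∑ i ∈ S, |u i| ≤ 2 ^ (L + 1) → ∑ i ∈ S, u i * 2 ^ ε' i = 0 →
    ∑ i ∈ S, u i * 2 ^ ε i = 0 := by
  induction n with
  | zero =>
    intro S hS _ u _ _
    rw [Finset.card_eq_zero] at hS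
    subst hS
    simp
  | succ n ih =>
    intro S hS H u hu h0
    have hne : S.Nonempty := Finset.card_pos.mp (by omega)
    obtain ⟨a, ha, hmin⟩ := Finset.exists_min_image S ε' hne
    have hcard : (S.erase a).card = n := by
      rw [Finset.card_erase_of_mem ha, hS]
      rfl
    have hsplit : ∀ g : ι → ℤ, ∑ i ∈ S, g i = g a + ∑ i ∈ S.erase a, g i := fun g =>
      (Finset.add_sum_erase S g ha).symm
    have H' : ∀ x ∈ S.erase a, ∀ y ∈ S.erase a, ε' x ≤ ε' y → ε' y ≤ ε' x + (L + 1) →
        ε y = ε x + (ε' y - ε' x) := fun x hx y hy =>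
      H x (Finset.mem_of_mem_erase hx) y (Finset.mem_of_mem_erase hy)
    rcases (S.erase a).eq_empty_or_nonempty with hem | hne'
    · rw [hsplit, hem, Finset.sum_empty, add_zero] at h0
      rw [hsplit, hem, Finset.sum_empty, add_zero]
      have : u a = 0 := by
        rcases mul_eq_zero.mp h0 with h | h
        · exact h
        · exact absurd h (by positivity)
      rw [this, zero_mul]
    · obtain ⟨b, hb, hbmin⟩ := Finset.exists_min_image (S.erase a) ε' hne'
      have hbS : b ∈ S := Finset.mem_of_mem_erase hb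
      have hab : ε' a ≤ ε' b := hmin b hbS
      have hdvd : (2 : ℤ) ^ ε' b ∣ ∑ i ∈ S.erase a, u i * 2 ^ ε' i :=
        Finset.dvd_sum fun i hi => Dvd.dvd.mul_left (pow_dvd_pow 2 (hbmin i hi)) _
      rw [hsplit] at h0
      have hdvd2 : (2 : ℤ) ^ ε' b ∣ u a * 2 ^ ε' a := by
        have : u a * 2 ^ ε' a = -∑ i ∈ S.erase a, u i * 2 ^ ε' i := by linarith
        rw [this]
        exact hdvd.neg_right
      have hdvd3 : (2 : ℤ) ^ (ε' b - ε' a) ∣ u a := by
        have h1 : (2 : ℤ) ^ ε' b = 2 ^ (ε' b - ε' a) * 2 ^ ε' a := by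
          rw [← pow_add, Nat.sub_add_cancel hab]
        rw [h1] at hdvd2
        exact (mul_dvd_mul_iff_right (by positivity)).mp hdvd2
      obtain ⟨v, hv⟩ := hdvd3
      have hsum : ∀ e : ι → ℕ, ∑ i ∈ S.erase a, (u i + if i = b then v else 0) * 2 ^ e i =
          ∑ i ∈ S.erase a, u i * 2 ^ e i + v * 2 ^ e b := by
        intro e
        have h1 : ∀ i ∈ S.erase a, (u i + if i = b then v else 0) * 2 ^ e i =
            u i * 2 ^ e i + if i = b then v * 2 ^ e b else 0 := by
          intro i _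
          split
          · rename_i h; rw [h]; ring
          · ring
        rw [Finset.sum_congr rfl h1, Finset.sum_add_distrib, Finset.sum_ite_eq', if_pos hb]
      have hvle : |v| ≤ |u a| := by
        rw [hv, abs_mul, abs_of_nonneg (by positivity : (0 : ℤ) ≤ 2 ^ (ε' b - ε' a))]
        exact le_mul_of_one_le_left (abs_nonneg v) (one_le_pow₀ (by norm_num))
      have habs : ∑ i ∈ S.erase a, |u i + if i = b then v else 0| ≤ 2 ^ (L + 1) := by
        have h1 : ∀ i ∈ S.erase a, |u i + if i = b then v else 0| ≤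
            |u i| + if i = b then |v| else 0 := by
          intro i _
          split
          · exact abs_add_le _ _
          · rw [add_zero, add_zero]
        calc ∑ i ∈ S.erase a, |u i + if i = b then v else 0|
            ≤ ∑ i ∈ S.erase a, (|u i| + if i = b then |v| else 0) := Finset.sum_le_sum h1
          _ = ∑ i ∈ S.erase a, |u i| + |v| := by
              rw [Finset.sum_add_distrib, Finset.sum_ite_eq', if_pos hb]
          _ ≤ 2 ^ (L + 1) := by
              rw [hsplit] at hu
              linarith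
      have hz : ∑ i ∈ S.erase a, (u i + if i = b then v else 0) * 2 ^ ε' i = 0 := by
        rw [hsum, ← h0, hv]
        have h1 : (2 : ℤ) ^ ε' b = 2 ^ (ε' b - ε' a) * 2 ^ ε' a := by
          rw [← pow_add, Nat.sub_add_cancel hab]
        rw [h1]
        ring
      have hr := ih (S.erase a) hcard H' _ habs hz
      rw [hsum] at hr
      rw [hsplit, ← hr]
      have hkey : u a * 2 ^ ε a = v * 2 ^ ε b := by
        by_cases hv0 : v = 0
        · rw [hv, hv0]; ring
        · have hua : |u a| ≤ 2 ^ (L + 1) := by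
            rw [hsplit] at hu
            have : 0 ≤ ∑ i ∈ S.erase a, |u i| := Finset.sum_nonneg fun i _ => abs_nonneg _
            linarith
          have h2 : (2 : ℤ) ^ (ε' b - ε' a) ≤ 2 ^ (L + 1) := by
            refine le_trans ?_ hua
            rw [hv, abs_mul, abs_of_nonneg (by positivity : (0 : ℤ) ≤ 2 ^ (ε' b - ε' a))]
            exact le_mul_of_one_le_right (by positivity) (Int.one_le_abs hv0)
          have h3 : ε' b - ε' a ≤ L + 1 := (pow_le_pow_iff_right₀ (by norm_num)).mp h2
          have h4 := H a ha b hbS hab (by omega)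
          rw [h4, hv, pow_add]
          ring
      rw [hkey]
      ring

/-- Sums `∑ u i * 2 ^ ε' i = 0` with small coefficients are also zero for exponents with the same
small differences. -/
theorem cluster {ι : Type*} [DecidableEq ι] (S : Finset ι) (ε ε' : ι → ℕ) (L : ℕ)
    (H : ∀ a ∈ S, ∀ b ∈ S, ε' a ≤ ε' b → ε' b ≤ ε' a + (L + 1) → ε b = ε a + (ε' b - ε' a))
    (u : ι → ℤ) (hu : ∑ i ∈ S, |u i| ≤ 2 ^ (L + 1))
    (h0 : ∑ i ∈ S, u i * 2 ^ ε' i = 0) : ∑ i ∈ S, u i * 2 ^ ε i = 0 :=
  cluster_aux ε ε' L S.card S rfl H u hu h0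

end Pool.Agent.CJB
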