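import Mathlib

/-!
# The conjugate model for factoring over F_2 (problem MP_54838b_lc)

`f = g * h`; the algorithm computes in `A = F_2[x]/f` without seeing `f`.
-/

namespace Pool.Agent.CJB
open Polynomial

/-- One gate: it computes a Frobenius conjugate `y_j ^ (2^e)` or a trace
`y_j + y_j^2 + ... + y_j^(2^(m-1))` of the base element number `j`. -/
inductive Gate : Type
  | conj (j e : ℕ) : Gate
  | trace (j m : ℕ) : Gate

namespace Gate

/-- number of the base element of a gate -/
def base : Gate → ℕ
  | .conj j _ => j
  | .trace j _ => j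

/-- the exponent of a gate -/
def size : Gate → ℕ
  | .conj _ e => e
  | .trace _ m => m

/-- the value of a gate, `y` the base elements -/
def val {S : Type*} [CommSemiring S] (y : ℕ → S) : Gate → S
  | .conj j e => y j ^ 2 ^ e
  | .trace j m => ∑ i ∈ Finset.range m, y j ^ 2 ^ i

end Gate

/-- The value of the polynomial `P` at the values of the gates `gs` (variable number `i` is the
value of the `i`-th gate; variables without a gate are `0`). -/
noncomputable def value {S : Type*} [CommRing S] [Algebra (ZMod 2) S] (y : ℕ → S)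
    (gs : List Gate) (P : MvPolynomial ℕ (ZMod 2)) : S :=
  MvPolynomial.aeval (fun i => (gs.map (Gate.val y)).getD i 0) P

/-- Algorithms: decision trees which apply gates and test whether the value of a polynomial
is zero or a unit. -/
inductive Alg : Type
  | stop : Alg
  | gate (c : Gate) (next : Alg) : Alg
  | test (P : MvPolynomial ℕ (ZMod 2)) (zero unit : Alg) : Alg

/-- The algorithm, started with the gates `gs`, finds a proper factor of `f`, that is, reaches a
test whose value is neither divisible by `f` nor coprime to `f`. -/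
def Finds (f : (ZMod 2)[X]) (y : ℕ → (ZMod 2)[X]) : List Gate → Alg → Prop
  | _, .stop => False
  | gs, .gate c next => Finds f y (gs ++ [c]) next
  | gs, .test P zero unit =>
      (f ∣ value y gs P ∧ Finds f y gs zero) ∨
      (IsCoprime f (value y gs P) ∧ Finds f y gs unit) ∨
      (¬ f ∣ value y gs P ∧ ¬ IsCoprime f (value y gs P))

/-- On every path at most `k` gates and at most `T` tests; base elements number `≤ R`, exponents
`< 2^B`, test polynomials of total degree `≤ 2^L`. -/
def Within (L B R : ℕ) : ℕ → ℕ → Alg → Prop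
  | _, _, .stop => True
  | k, T, .gate c next =>
      c.base ≤ R ∧ c.size < 2 ^ B ∧ ∃ k', k = k' + 1 ∧ Within L B R k' T next
  | k, T, .test P zero unit =>
      P.totalDegree ≤ 2 ^ L ∧
        ∃ T', T = T' + 1 ∧ Within L B R k T' zero ∧ Within L B R k T' unit

/-- The monic irreducible polynomials of degree `d` over `F_2`. -/
def Irr (d : ℕ) : Type := {g : (ZMod 2)[X] // g.Monic ∧ Irreducible g ∧ g.natDegree = d}

/-- The base elements: `x`, then `R` elements given by polynomials of degree `< n`. -/
noncomputable def env {n R : ℕ} (r : Fin R → degreeLT (ZMod 2) n) : ℕ → (ZMod 2)[X]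
  | 0 => X
  | j + 1 => if h : j < R then (r ⟨j, h⟩ : (ZMod 2)[X]) else 0

/-- The pairs of primes `p < q ≤ 3 p` with `p + q = n`. -/
def types (n : ℕ) : Finset (ℕ × ℕ) :=
  (Finset.range n ×ˢ Finset.range n).filter fun a =>
    a.1.Prime ∧ a.2.Prime ∧ a.1 < a.2 ∧ a.2 ≤ 3 * a.1 ∧ a.1 + a.2 = n

/-- The outcomes of the random experiment for degrees `a = (p, q)`: coins, two irreducible
polynomials, `R` random elements. -/
abbrev Outcome (Ω : Type) (R : ℕ) (a : ℕ × ℕ) : Type :=
  Ω × Irr a.1 × Irr a.2 × (Fin R → degreeLT (ZMod 2) (a.1 + a.2))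

/-- The probability that the randomised algorithm `A` finds a proper factor of `g * h`,
`g`, `h` random irreducible of degrees `a.1`, `a.2`. -/
noncomputable def prob {Ω : Type} (A : Ω → Alg) (R : ℕ) (a : ℕ × ℕ) : ℝ :=
  (Nat.card {t : Outcome Ω R a // Finds (t.2.1.1 * t.2.2.1.1) (env t.2.2.2) [] (A t.1)} : ℝ) /
    Nat.card (Outcome Ω R a)

end Pool.Agent.CJB
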