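import Pool.Agent.CJB.Defs

/-! Auxiliary definitions for the proof (not used in the statement). -/

namespace Pool.Agent.CJB
open Polynomial

namespace Gate

/-- upper exponent after the substitution `y = s^2 + s + t` -/
def hi : Gate → ℕ
  | .conj _ e => e + 1
  | .trace _ m => m

/-- lower exponent -/
def lo : Gate → ℕ
  | .conj _ e => e
  | .trace _ _ => 0

/-- coefficient of `t` -/
def par : Gate → ℕ
  | .conj _ _ => 1
  | .trace _ m => m

end Gate

/-- all exponents of a list of gates -/
def exps (gs : List Gate) : Finset ℕ := (gs.map Gate.hi ++ gs.map Gate.lo).toFinset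

/-- formal base elements -/
noncomputable def fenv (R : ℕ) : ℕ → MvPolynomial (Fin (R + 1)) (ZMod 2) :=
  fun j => if h : j < R + 1 then MvPolynomial.X ⟨j, h⟩ else 0

/-- formal value of a test -/
noncomputable def fval (R : ℕ) (gs : List Gate) (P : MvPolynomial ℕ (ZMod 2)) :
    MvPolynomial (Fin (R + 1)) (ZMod 2) := value (fenv R) gs P

/-- base elements as a tuple -/
noncomputable def tup {n R : ℕ} (r : Fin R → degreeLT (ZMod 2) n) : Fin (R + 1) → (ZMod 2)[X] :=
  Fin.cons X fun j => (r j : (ZMod 2)[X])

/-- `p` is good for the set of exponents `E` -/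
def Good (E : Finset ℕ) (L p : ℕ) : Prop :=
  ∀ a ∈ E, ∀ b ∈ E, ∀ t ≤ L + 1, (p : ℤ) ∣ (b : ℤ) - a - t → (b : ℤ) - a = t

open Classical in
/-- some test on the formal path has nonzero formal value with the property `W` -/
noncomputable def Viol (R : ℕ) (W : MvPolynomial (Fin (R + 1)) (ZMod 2) → Prop) :
    List Gate → Alg → Prop
  | _, .stop => False
  | gs, .gate c next => Viol R W (gs ++ [c]) next
  | gs, .test P zero unit =>
      if fval R gs P = 0 then Viol R W gs zero
      else W (fval R gs P) ∨ Viol R W gs unit

open Classical in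
/-- the gates on the formal path -/
noncomputable def pathGates (R : ℕ) : List Gate → Alg → List Gate
  | gs, .stop => gs
  | gs, .gate c next => pathGates R (gs ++ [c]) next
  | gs, .test P zero unit =>
      if fval R gs P = 0 then pathGates R gs zero else pathGates R gs unit

end Pool.Agent.CJB
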