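import Mathlib

/-! Module CJB_FRM: transfer from reduced exponents to true exponents. -/

set_option autoImplicit false

namespace Pool.Agent.CJB

namespace FRM

/-- The exponent vector of the value of the monomial `m`. -/
noncomputable def expo {ι κ : Type} [Fintype ι] (b : ι → κ) (ε : ι → ℕ) (m : ι →₀ ℕ) : κ →₀ ℕ :=
  ∑ z, Finsupp.single (b z) (2 ^ ε z * m z)

theorem aeval_expo {ι κ : Type} [Fintype ι] (P : MvPolynomial ι (ZMod 2)) (b : ι → κ)
    (ε : ι → ℕ) :
    MvPolynomial.aeval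
      (fun z => (MvPolynomial.X (b z) : MvPolynomial κ (ZMod 2)) ^ 2 ^ ε z) P =
      ∑ m ∈ P.support, MvPolynomial.monomial (expo b ε m) (P.coeff m) := by
  rw [MvPolynomial.aeval_def, MvPolynomial.eval₂_eq']
  refine Finset.sum_congr rfl fun m _ => ?_
  rw [expo, MvPolynomial.monomial_sum_index, MvPolynomial.algebraMap_eq]
  congr 1
  refine Finset.prod_congr rfl fun z _ => ?_
  rw [← pow_mul, MvPolynomial.X_pow_eq_monomial]

theorem coeff_expo {ι κ : Type} [Fintype ι] [DecidableEq κ] (P : MvPolynomial ι (ZMod 2))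
    (b : ι → κ) (ε : ι → ℕ) (k : κ →₀ ℕ) :
    MvPolynomial.coeff k (MvPolynomial.aeval
      (fun z => (MvPolynomial.X (b z) : MvPolynomial κ (ZMod 2)) ^ 2 ^ ε z) P) =
      ∑ m ∈ P.support.filter (fun m => expo b ε m = k), P.coeff m := by
  classical
  rw [aeval_expo, MvPolynomial.coeff_sum, Finset.sum_filter]
  refine Finset.sum_congr rfl fun m _ => ?_
  rw [MvPolynomial.coeff_monomial]

theorem expo_apply {ι κ : Type} [Fintype ι] [DecidableEq κ] (b : ι → κ) (ε : ι → ℕ)
    (m : ι →₀ ℕ) (j : κ) :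
    expo b ε m j = ∑ z ∈ Finset.univ.filter (fun z => b z = j), 2 ^ ε z * m z := by
  rw [expo, Finsupp.finsetSum_apply, Finset.sum_filter]
  refine Finset.sum_congr rfl fun z _ => ?_
  rw [Finsupp.single_apply]

end FRM

theorem formal
    (clu : ∀ {ι : Type} [DecidableEq ι] (S : Finset ι) (ε ε' : ι → ℕ) (L : ℕ)
      (_ : ∀ a ∈ S, ∀ b ∈ S, ε' a ≤ ε' b → ε' b ≤ ε' a + (L + 1) → ε b = ε a + (ε' b - ε' a))
      (u : ι → ℤ) (_ : ∑ i ∈ S, |u i| ≤ 2 ^ (L + 1))
      (_ : ∑ i ∈ S, u i * 2 ^ ε' i = 0), ∑ i ∈ S, u i * 2 ^ ε i = 0)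
    {ι κ : Type} [Fintype ι] [DecidableEq ι] [DecidableEq κ] (P : MvPolynomial ι (ZMod 2))
    (b : ι → κ) (ε ε' : ι → ℕ) (L : ℕ) (hP : P.totalDegree ≤ 2 ^ L)
    (H : ∀ z z', ε' z ≤ ε' z' → ε' z' ≤ ε' z + (L + 1) → ε z' = ε z + (ε' z' - ε' z))
    (h : MvPolynomial.aeval
      (fun z => (MvPolynomial.X (b z) : MvPolynomial κ (ZMod 2)) ^ 2 ^ ε' z) P = 0) :
    MvPolynomial.aeval
      (fun z => (MvPolynomial.X (b z) : MvPolynomial κ (ZMod 2)) ^ 2 ^ ε z) P = 0 := by
  classical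
  -- equal reduced exponents give equal true exponents
  have key : ∀ m ∈ P.support, ∀ m' ∈ P.support, FRM.expo b ε' m = FRM.expo b ε' m' →
      FRM.expo b ε m = FRM.expo b ε m' := by
    intro m hm m' hm' he
    ext j
    have hj : FRM.expo b ε' m j = FRM.expo b ε' m' j := by rw [he]
    rw [FRM.expo_apply, FRM.expo_apply] at hj ⊢
    have hdeg : ∀ x ∈ P.support, ∑ z ∈ Finset.univ.filter (fun z => b z = j), x z ≤ 2 ^ L := by
      intro x hx
      have h1 : ∑ z ∈ Finset.univ.filter (fun z => b z = j), x z ≤ ∑ z, x z :=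
        Finset.sum_le_sum_of_subset (Finset.filter_subset _ _)
      have h2 : ∑ z, x z = x.sum (fun _ e => e) := by
        rw [Finsupp.sum_fintype _ _ (fun _ => rfl)]
      have h3 := MvPolynomial.le_totalDegree hx
      omega
    have hu : ∑ z ∈ Finset.univ.filter (fun z => b z = j), |((m z : ℤ) - (m' z : ℤ))| ≤
        2 ^ (L + 1) := by
      calc ∑ z ∈ Finset.univ.filter (fun z => b z = j), |((m z : ℤ) - (m' z : ℤ))|
          ≤ ∑ z ∈ Finset.univ.filter (fun z => b z = j), ((m z : ℤ) + (m' z : ℤ)) := by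
            refine Finset.sum_le_sum fun z _ => ?_
            rw [abs_le]
            constructor <;> omega
        _ = ((∑ z ∈ Finset.univ.filter (fun z => b z = j), m z : ℕ) : ℤ) +
            ((∑ z ∈ Finset.univ.filter (fun z => b z = j), m' z : ℕ) : ℤ) := by
            rw [Finset.sum_add_distrib]
            push_cast
            rfl
        _ ≤ 2 ^ L + 2 ^ L := by
            have h1 := hdeg m hm
            have h2 := hdeg m' hm'
            have h3 : ((∑ z ∈ Finset.univ.filter (fun z => b z = j), m z : ℕ) : ℤ) ≤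
                ((2 ^ L : ℕ) : ℤ) := by exact_mod_cast h1
            have h4 : ((∑ z ∈ Finset.univ.filter (fun z => b z = j), m' z : ℕ) : ℤ) ≤
                ((2 ^ L : ℕ) : ℤ) := by exact_mod_cast h2
            push_cast at h3 h4 ⊢
            linarith
        _ = 2 ^ (L + 1) := by ring
    have h0 : ∑ z ∈ Finset.univ.filter (fun z => b z = j), ((m z : ℤ) - (m' z : ℤ)) * 2 ^ ε' z =
        0 := by
      have hj' : ((∑ z ∈ Finset.univ.filter (fun z => b z = j), 2 ^ ε' z * m z : ℕ) : ℤ) =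
          ((∑ z ∈ Finset.univ.filter (fun z => b z = j), 2 ^ ε' z * m' z : ℕ) : ℤ) := by
        rw [hj]
      push_cast at hj'
      rw [← sub_eq_zero, ← Finset.sum_sub_distrib] at hj'
      rw [← hj']
      refine Finset.sum_congr rfl fun z _ => ?_
      ring
    have hc := clu (Finset.univ.filter (fun z => b z = j)) ε ε' L
      (fun a _ c _ => H a c) (fun z => (m z : ℤ) - (m' z : ℤ)) hu h0
    have hc' : ((∑ z ∈ Finset.univ.filter (fun z => b z = j), 2 ^ ε z * m z : ℕ) : ℤ) =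
        ((∑ z ∈ Finset.univ.filter (fun z => b z = j), 2 ^ ε z * m' z : ℕ) : ℤ) := by
      push_cast
      rw [← sub_eq_zero, ← Finset.sum_sub_distrib, ← hc]
      refine Finset.sum_congr rfl fun z _ => ?_
      ring
    exact_mod_cast hc'
  have hvan : ∀ k' : κ →₀ ℕ,
      ∑ m ∈ P.support.filter (fun m => FRM.expo b ε' m = k'), P.coeff m = 0 := by
    intro k'
    rw [← FRM.coeff_expo, h, MvPolynomial.coeff_zero]
  ext k
  rw [FRM.coeff_expo, MvPolynomial.coeff_zero]
  rw [← Finset.sum_fiberwise_of_maps_to (s := P.support.filter (fun m => FRM.expo b ε m = k))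
    (t := (P.support.filter (fun m => FRM.expo b ε m = k)).image (FRM.expo b ε'))
    (g := FRM.expo b ε') (fun x hx => Finset.mem_image_of_mem _ hx)]
  refine Finset.sum_eq_zero fun k' hk' => ?_
  obtain ⟨m0, hm0, hm0'⟩ := Finset.mem_image.1 hk'
  rw [Finset.mem_filter] at hm0
  rw [← hvan k']
  refine Finset.sum_congr ?_ fun _ _ => rfl
  ext m
  rw [Finset.mem_filter, Finset.mem_filter, Finset.mem_filter]
  constructor
  · rintro ⟨⟨h1, _⟩, h3⟩
    exact ⟨h1, h3⟩
  · rintro ⟨h1, h3⟩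
    refine ⟨⟨h1, ?_⟩, h3⟩
    rw [← hm0.2]
    exact key m h1 m0 hm0.1 (by rw [h3, hm0'])

end Pool.Agent.CJB
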