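import Pool.Agent.CJB.Defs2

/-! The number of irreducible polynomials of prime degree over `F_2`. -/

namespace Pool.Agent.CJB
open Polynomial

namespace IRA

theorem finite_irr (d : ℕ) : Finite (Irr d) := by
  have hfin : Finite (degreeLT (ZMod 2) (d + 1)) :=
    Finite.of_equiv _ (degreeLTEquiv (ZMod 2) (d + 1)).toEquiv.symm
  have hmem : ∀ g : Irr d, g.1 ∈ degreeLT (ZMod 2) (d + 1) := by
    intro g
    rw [mem_degreeLT]
    refine lt_of_le_of_lt degree_le_natDegree ?_
    rw [g.2.2.2]
    exact_mod_cast Nat.lt_succ_self d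
  refine Finite.of_injective (fun g : Irr d => (⟨g.1, hmem g⟩ : degreeLT (ZMod 2) (d + 1))) ?_
  intro g h e
  exact Subtype.ext (congrArg (fun x : degreeLT (ZMod 2) (d + 1) => (x : (ZMod 2)[X])) e)

end IRA

theorem card_irr (p : ℕ) (hp : p.Prime) :
    Finite (Irr p) ∧ 2 ^ p ≤ 2 * p * Nat.card (Irr p) := by
  classical
  have hfin := IRA.finite_irr p
  refine ⟨hfin, ?_⟩
  have : Fact (Nat.Prime 2) := ⟨Nat.prime_two⟩
  have hfF : Finite (GaloisField 2 p) := inferInstance
  let F := GaloisField 2 p
  letI : Fintype F := Fintype.ofFinite F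
  letI : Fintype (Irr p) := Fintype.ofFinite (Irr p)
  have hcard : Fintype.card F = 2 ^ p := by
    rw [← Nat.card_eq_fintype_card]
    exact GaloisField.card 2 p hp.ne_zero
  let s : Finset F := Finset.univ.filter fun α => α ∉ (algebraMap (ZMod 2) F).range
  let t : Finset (ZMod 2)[X] := (Finset.univ : Finset (Irr p)).image fun g => g.1
  have ht : t.card = Nat.card (Irr p) := by
    have h : t.card = (Finset.univ : Finset (Irr p)).card :=
      Finset.card_image_of_injective _ fun g h e => Subtype.ext e
    rw [h, Finset.card_univ, Nat.card_eq_fintype_card]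
  have hmaps : ∀ α ∈ s, minpoly (ZMod 2) α ∈ t := by
    intro α hα
    have hα := (Finset.mem_filter.mp hα).2
    have hint : IsIntegral (ZMod 2) α := IsIntegral.of_finite (ZMod 2) α
    have hdvd := minpoly.degree_dvd (K := ZMod 2) (L := F) hint
    rw [GaloisField.finrank 2 hp.ne_zero] at hdvd
    have hdeg : (minpoly (ZMod 2) α).natDegree = p := by
      rcases (Nat.dvd_prime hp).mp hdvd with h | h
      · exact absurd (minpoly.natDegree_eq_one_iff.mp h) hα
      · exact h
    exact Finset.mem_image.mpr ⟨⟨minpoly (ZMod 2) α, minpoly.monic hint,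
      minpoly.irreducible hint, hdeg⟩, Finset.mem_univ _, rfl⟩
  have hfib : ∀ b ∈ t, (s.filter fun α => minpoly (ZMod 2) α = b).card ≤ p := by
    intro b hb
    obtain ⟨g, -, rfl⟩ := Finset.mem_image.mp hb
    have hsub : (s.filter fun α => minpoly (ZMod 2) α = g.1) ⊆
        (g.1.map (algebraMap (ZMod 2) F)).roots.toFinset := by
      intro α hα
      have hα := (Finset.mem_filter.mp hα).2
      rw [Multiset.mem_toFinset, mem_roots (g.2.1.map _).ne_zero, IsRoot.def, eval_map_algebraMap,
        ← hα]
      exact minpoly.aeval _ _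
    refine (Finset.card_le_card hsub).trans ((Multiset.toFinset_card_le _).trans ?_)
    refine (card_roots' _).trans ?_
    rw [g.2.1.natDegree_map, g.2.2.2]
  have h1 := Finset.card_le_mul_card_image_of_maps_to hmaps p hfib
  have h2 : Fintype.card F ≤ s.card + 2 := by
    have hcov : (Finset.univ : Finset F) ⊆
        s ∪ (Finset.univ : Finset (ZMod 2)).image (algebraMap (ZMod 2) F) := by
      intro α _
      by_cases hα : α ∈ (algebraMap (ZMod 2) F).range
      · obtain ⟨x, hx⟩ := hα
        exact Finset.mem_union_right _ (Finset.mem_image.mpr ⟨x, Finset.mem_univ _, hx⟩)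
      · exact Finset.mem_union_left _ (Finset.mem_filter.mpr ⟨Finset.mem_univ _, hα⟩)
    have h3 := (Finset.card_le_card hcov).trans (Finset.card_union_le _ _)
    have h4 : ((Finset.univ : Finset (ZMod 2)).image (algebraMap (ZMod 2) F)).card ≤ 2 :=
      Finset.card_image_le.trans (by rw [Finset.card_univ, ZMod.card])
    rw [Finset.card_univ] at h3
    omega
  have h5 : 4 ≤ 2 ^ p := by
    calc 4 = 2 ^ 2 := by norm_num
      _ ≤ 2 ^ p := Nat.pow_le_pow_right (by norm_num) hp.two_le
  rw [hcard] at h2
  rw [ht] at h1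
  rw [mul_assoc]
  omega

end Pool.Agent.CJB
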