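import Pool.Agent.CJB.Defs2

/-! Module CJB_IRB (helper14). -/

namespace Pool.Agent.CJB
open Polynomial

theorem irb_root (p : ℕ) (F : Type) [Field F] [Fintype F] [Algebra (ZMod 2) F]
    (hF : Fintype.card F = 2 ^ p) (g : Irr p) : ∃ α : F, aeval α g.1 = 0 := by
  classical
  haveI : Fact (Irreducible g.1) := ⟨g.2.2.1⟩
  haveI : Fact (Nat.Prime 2) := ⟨Nat.prime_two⟩
  have hg0 : g.1 ≠ 0 := g.2.2.1.ne_zero
  haveI : FiniteDimensional (ZMod 2) (AdjoinRoot g.1) := (AdjoinRoot.powerBasis hg0).finite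
  haveI : Finite (AdjoinRoot g.1) := Module.finite_of_finite (ZMod 2)
  haveI : Fintype (AdjoinRoot g.1) := Fintype.ofFinite _
  have hcard : Fintype.card (AdjoinRoot g.1) = Fintype.card F := by
    rw [hF, ← Nat.card_eq_fintype_card, Module.natCard_eq_pow_finrank (K := ZMod 2),
      (AdjoinRoot.powerBasis hg0).finrank, AdjoinRoot.powerBasis_dim, g.2.2.2, Nat.card_zmod]
  let e : AdjoinRoot g.1 ≃ₐ[ZMod 2] F := FiniteField.algEquivOfCardEq 2 hcard
  refine ⟨e (AdjoinRoot.root g.1), ?_⟩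
  have h1 : aeval (e (AdjoinRoot.root g.1)) g.1 = e (aeval (AdjoinRoot.root g.1) g.1) :=
    (aeval_algHom_apply e.toAlgHom (AdjoinRoot.root g.1) g.1)
  rw [h1, AdjoinRoot.aeval_eq, AdjoinRoot.mk_self, map_zero]

theorem card_pairs (p n R : ℕ) (hp : p.Prime) (hn : p ≤ n)
    (V : MvPolynomial (Fin (R + 1)) (ZMod 2)) (F : Type) [Field F] [Fintype F] [Algebra (ZMod 2) F]
    (hF : Fintype.card F = 2 ^ p) :
    Nat.card {x : Irr p × (Fin R → degreeLT (ZMod 2) n) //
        x.1.1 ∣ MvPolynomial.aeval (tup x.2) V} ≤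
      (2 ^ (n - p)) ^ R * Nat.card {ρ : Fin (R + 1) → F // MvPolynomial.aeval ρ V = 0} := by
  classical
  choose α hα using irb_root p F hF
  haveI hfin : ∀ m, Finite (degreeLT (ZMod 2) m) := fun m =>
    Finite.of_equiv _ (degreeLTEquiv (ZMod 2) m).symm.toEquiv
  have hcard : ∀ m, Nat.card (degreeLT (ZMod 2) m) = 2 ^ m := by
    intro m
    rw [Nat.card_congr (degreeLTEquiv (ZMod 2) m).toEquiv, Nat.card_fun, Nat.card_zmod,
      Nat.card_eq_fintype_card, Fintype.card_fin]
  have hq : ∀ (g : Irr p) (r : degreeLT (ZMod 2) n), (r : (ZMod 2)[X]) /ₘ g.1 ∈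
      degreeLT (ZMod 2) (n - p) := by
    intro g r
    rw [mem_degreeLT]
    have hr := mem_degreeLT.1 r.2
    by_cases h : (r : (ZMod 2)[X]).degree < g.1.degree
    · rw [(divByMonic_eq_zero_iff g.2.1).2 h, degree_zero]
      exact WithBot.bot_lt_coe _
    · have hr0 : (r : (ZMod 2)[X]) ≠ 0 := by
        intro h0
        rw [h0, degree_zero] at h
        apply h
        rw [degree_eq_natDegree g.2.2.1.ne_zero]
        exact WithBot.bot_lt_coe _
      have h1 : (r : (ZMod 2)[X]).natDegree < n := by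
        rw [degree_eq_natDegree hr0] at hr
        exact_mod_cast hr
      have h2 : p ≤ (r : (ZMod 2)[X]).natDegree := by
        rw [degree_eq_natDegree hr0, degree_eq_natDegree g.2.2.1.ne_zero, g.2.2.2] at h
        push Not at h
        exact_mod_cast h
      refine lt_of_le_of_lt degree_le_natDegree ?_
      rw [natDegree_divByMonic _ g.2.1, g.2.2.2]
      exact_mod_cast (by omega : (r : (ZMod 2)[X]).natDegree - p < n - p)
  let Φ : {x : Irr p × (Fin R → degreeLT (ZMod 2) n) //
        x.1.1 ∣ MvPolynomial.aeval (tup x.2) V} →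
      (Fin R → degreeLT (ZMod 2) (n - p)) × {ρ : Fin (R + 1) → F // MvPolynomial.aeval ρ V = 0} :=
    fun x => (fun j => ⟨(x.1.2 j : (ZMod 2)[X]) /ₘ x.1.1.1, hq _ _⟩,
      ⟨Fin.cons (α x.1.1) fun j => aeval (α x.1.1) (x.1.2 j : (ZMod 2)[X]), by
        obtain ⟨c, hc⟩ := x.2
        have h1 : aeval (α x.1.1) (MvPolynomial.aeval (tup x.1.2) V) = 0 := by
          rw [hc, map_mul, hα, zero_mul]
        have h2 : aeval (α x.1.1) (MvPolynomial.aeval (tup x.1.2) V) =
            MvPolynomial.aeval (fun j => aeval (α x.1.1) (tup x.1.2 j)) V := by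
          rw [← MvPolynomial.comp_aeval_apply]
        have h3 : (fun j => aeval (α x.1.1) (tup x.1.2 j)) =
            (Fin.cons (α x.1.1) fun j => aeval (α x.1.1) (x.1.2 j : (ZMod 2)[X]) :
              Fin (R + 1) → F) := by
          funext j
          refine Fin.cases ?_ (fun j => ?_) j
          · simp [tup]
          · simp [tup]
        rw [← h3, ← h2, h1]⟩)
  have hΦ : Function.Injective Φ := by
    rintro ⟨⟨g, r⟩, hx⟩ ⟨⟨g', r'⟩, hx'⟩ h
    have h1 : ∀ j, (r j : (ZMod 2)[X]) /ₘ g.1 = (r' j : (ZMod 2)[X]) /ₘ g'.1 := fun j =>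
      congrArg Subtype.val (congrFun (congrArg Prod.fst h) j)
    have h2 := congrArg Subtype.val (congrArg Prod.snd h)
    have h3 : α g = α g' := congrFun h2 0
    have h4 : ∀ j, aeval (α g) (r j : (ZMod 2)[X]) = aeval (α g') (r' j : (ZMod 2)[X]) := by
      intro j
      have := congrFun h2 j.succ
      simpa [Φ] using this
    have hm : ∀ k : Irr p, k.1 = minpoly (ZMod 2) (α k) := fun k =>
      minpoly.eq_of_irreducible_of_monic k.2.2.1 (hα k) k.2.1
    have hgg : g = g' := by
      apply Subtype.ext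
      rw [hm g, hm g', h3]
    subst hgg
    have hrr : r = r' := by
      funext j
      apply Subtype.ext
      have h5 : g.1 ∣ (r j : (ZMod 2)[X]) - r' j := by
        rw [hm g]
        apply minpoly.dvd
        rw [map_sub, h4 j, sub_self]
      have h6 := modByMonic_add_div (r j : (ZMod 2)[X]) g.1
      have h7 := modByMonic_add_div (r' j : (ZMod 2)[X]) g.1
      have h8 : (r j : (ZMod 2)[X]) %ₘ g.1 = (r' j : (ZMod 2)[X]) %ₘ g.1 := by
        have h9 := (modByMonic_eq_zero_iff_dvd g.2.1).2 h5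
        rw [sub_modByMonic] at h9
        exact sub_eq_zero.1 h9
      rw [← h6, ← h7, h8, h1 j]
    subst hrr
    rfl
  have hle := Nat.card_le_card_of_injective Φ hΦ
  rw [Nat.card_prod, Nat.card_fun, hcard, Nat.card_eq_fintype_card (α := Fin R),
    Fintype.card_fin] at hle
  exact hle

end Pool.Agent.CJB
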