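import Pool.Agent.CJB.Defs2

/-! Many representations as a sum of two primes of the same size. -/

set_option autoImplicit false

namespace Pool.Agent.CJB

namespace NUM

open Finset

lemma ev_log : ∃ x₀ : ℝ, 1 ≤ x₀ ∧ ∀ x : ℝ, x₀ ≤ x → Real.log x ≤ 1 / 100 * Real.sqrt x := by
  have h := (isLittleO_log_rpow_atTop (r := 1 / 2) (by norm_num)).def
    (show (0 : ℝ) < 1 / 100 by norm_num)
  obtain ⟨x₀, hx⟩ := Filter.eventually_atTop.1 h
  refine ⟨max x₀ 1, le_max_right _ _, fun x hx1 => ?_⟩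
  have h1 := hx x ((le_max_left _ _).trans hx1)
  have h2 : (1 : ℝ) ≤ x := (le_max_right _ _).trans hx1
  rw [Real.norm_of_nonneg (Real.log_nonneg h2), Real.norm_of_nonneg (by positivity),
    ← Real.sqrt_eq_rpow] at h1
  exact h1

/-- The primes in `(M, 3 M]`. -/
def Pr (M : ℕ) : Finset ℕ := (Ioc M (3 * M)).filter Nat.Prime

lemma count : ∃ M₀ : ℕ, 10 ≤ M₀ ∧ ∀ M : ℕ, M₀ ≤ M →
    (M : ℝ) / 2 ≤ ((Pr M).card : ℝ) * Real.log (3 * M) := by
  obtain ⟨x₀, hx1, hx⟩ := ev_log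
  refine ⟨max ⌈x₀⌉₊ 100, by omega, fun M hM => ?_⟩
  have hM1 : x₀ ≤ M := by
    have : ⌈x₀⌉₊ ≤ M := (le_max_left _ _).trans hM
    exact (Nat.le_ceil _).trans (by exact_mod_cast this)
  have hM2 : 100 ≤ M := (le_max_right _ _).trans hM
  have hM2R : (100 : ℝ) ≤ M := by exact_mod_cast hM2
  have h1 := Chebyshev.theta_ge (3 * M)
  have h2 := Chebyshev.theta_le_log4_mul_x (x := (M : ℝ)) (by positivity)
  have hl2 : 0.693 < Real.log 2 := by linarith [Real.log_two_gt_d9]
  have hl4 : Real.log 4 = 2 * Real.log 2 := by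
    rw [show (4 : ℝ) = 2 ^ 2 by norm_num, Real.log_pow]
    norm_num
  have h3 : Chebyshev.theta ((3 * M : ℕ) : ℝ) - Chebyshev.theta (M : ℝ) ≤
      ((Pr M).card : ℝ) * Real.log (3 * M) := by
    have e1 : Chebyshev.theta ((3 * M : ℕ) : ℝ) =
        ∑ p ∈ (Ioc 0 (3 * M)).filter Nat.Prime, Real.log p := by
      unfold Chebyshev.theta
      rw [Nat.floor_natCast]
    have e2 : Chebyshev.theta (M : ℝ) =
        ∑ p ∈ (Ioc 0 M).filter Nat.Prime, Real.log p := by
      unfold Chebyshev.theta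
      rw [Nat.floor_natCast]
    have e3 : (Ioc 0 (3 * M)).filter Nat.Prime =
        (Ioc 0 M).filter Nat.Prime ∪ Pr M := by
      unfold Pr
      ext p
      simp only [Finset.mem_filter, Finset.mem_Ioc, Finset.mem_union]
      constructor
      · rintro ⟨⟨a1, a2⟩, a3⟩
        by_cases h : p ≤ M
        · exact Or.inl ⟨⟨a1, h⟩, a3⟩
        · exact Or.inr ⟨⟨by omega, a2⟩, a3⟩
      · rintro (⟨⟨a1, a2⟩, a3⟩ | ⟨⟨a1, a2⟩, a3⟩)
        · exact ⟨⟨a1, by omega⟩, a3⟩
        · exact ⟨⟨by omega, a2⟩, a3⟩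
    have e4 : Disjoint ((Ioc 0 M).filter Nat.Prime) (Pr M) := by
      unfold Pr
      rw [Finset.disjoint_left]
      intro p hp hp'
      simp only [Finset.mem_filter, Finset.mem_Ioc] at hp hp'
      omega
    rw [e1, e2, e3, Finset.sum_union e4, add_sub_cancel_left, ← nsmul_eq_mul]
    apply Finset.sum_le_card_nsmul
    intro p hp
    have hp1 := Finset.mem_filter.1 hp
    have hp2 := Finset.mem_Ioc.1 hp1.1
    apply Real.log_le_log (by exact_mod_cast hp1.2.pos)
    exact_mod_cast hp2.2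
  have h4 : Real.log ((3 * M : ℕ) + 1) ≤ 1 / 100 * ((3 * M : ℕ) + 1) := by
    have a1 := hx ((3 * M : ℕ) + 1) (by push_cast; linarith)
    have a2 : Real.sqrt ((3 * M : ℕ) + 1) ≤ (3 * M : ℕ) + 1 := by
      rw [Real.sqrt_le_left (by positivity)]
      have : (1 : ℝ) ≤ ((3 * M : ℕ) : ℝ) + 1 := by linarith [Nat.cast_nonneg (α := ℝ) (3 * M)]
      nlinarith
    linarith
  have h5 : 2 * Real.sqrt ((3 * M : ℕ) : ℝ) * Real.log ((3 * M : ℕ) : ℝ) ≤
      2 / 100 * ((3 * M : ℕ) : ℝ) := by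
    have a1 := hx ((3 * M : ℕ) : ℝ) (by push_cast; linarith)
    have a2 : Real.sqrt ((3 * M : ℕ) : ℝ) * Real.sqrt ((3 * M : ℕ) : ℝ) = ((3 * M : ℕ) : ℝ) :=
      Real.mul_self_sqrt (by positivity)
    nlinarith [mul_le_mul_of_nonneg_left a1 (Real.sqrt_nonneg ((3 * M : ℕ) : ℝ))]
  push_cast at h1 h3 h4 h5
  rw [hl4] at h2
  have h6 : (0.693 : ℝ) * M ≤ Real.log 2 * M := by nlinarith
  linarith

lemma pairs (S : Finset ℕ) :
    2 * ((S ×ˢ S).filter (fun a => a.1 < a.2)).card + S.card = S.card * S.card := by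
  have h1 : ((S ×ˢ S).filter (fun a => a.1 < a.2)).card =
      ((S ×ˢ S).filter (fun a => a.2 < a.1)).card := by
    apply Finset.card_bij (fun a _ => (a.2, a.1))
    · intro a ha
      simp only [Finset.mem_filter, Finset.mem_product] at ha ⊢
      exact ⟨⟨ha.1.2, ha.1.1⟩, ha.2⟩
    · intro a _ b _ hab
      simp only [Prod.mk.injEq] at hab
      exact Prod.ext hab.2 hab.1
    · intro b hb
      simp only [Finset.mem_filter, Finset.mem_product] at hb
      exact ⟨(b.2, b.1), by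
        simp only [Finset.mem_filter, Finset.mem_product]
        exact ⟨⟨hb.1.2, hb.1.1⟩, hb.2⟩, rfl⟩
  have h2 : ((S ×ˢ S).filter (fun a => a.1 = a.2)).card = S.card := by
    symm
    apply Finset.card_bij (fun a _ => (a, a))
    · intro a ha
      simp only [Finset.mem_filter, Finset.mem_product]
      exact ⟨⟨ha, ha⟩, trivial⟩
    · intro a _ b _ hab
      simp only [Prod.mk.injEq] at hab
      exact hab.1
    · intro b hb
      simp only [Finset.mem_filter, Finset.mem_product] at hb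
      exact ⟨b.1, hb.1.1, Prod.ext rfl hb.2⟩
  have h3 := Finset.card_filter_add_card_filter_not (s := S ×ˢ S) (fun a => a.1 < a.2)
  have h4 := Finset.card_filter_add_card_filter_not
    (s := (S ×ˢ S).filter (fun a => ¬ a.1 < a.2)) (fun a => a.1 = a.2)
  have h5 : ((S ×ˢ S).filter (fun a => ¬ a.1 < a.2)).filter (fun a => a.1 = a.2) =
      (S ×ˢ S).filter (fun a => a.1 = a.2) := by
    ext a
    simp only [Finset.mem_filter]
    constructor
    · rintro ⟨⟨h, _⟩, h'⟩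
      exact ⟨h, h'⟩
    · rintro ⟨h, h'⟩
      exact ⟨⟨h, by omega⟩, h'⟩
  have h6 : ((S ×ˢ S).filter (fun a => ¬ a.1 < a.2)).filter (fun a => ¬ a.1 = a.2) =
      (S ×ˢ S).filter (fun a => a.2 < a.1) := by
    ext a
    simp only [Finset.mem_filter]
    constructor
    · rintro ⟨⟨h, _⟩, h'⟩
      exact ⟨h, by omega⟩
    · rintro ⟨h, h'⟩
      exact ⟨⟨h, by omega⟩, by omega⟩
  rw [h5, h6, h2] at h4
  rw [Finset.card_product] at h3
  omega

end NUM

open NUM Finset in
theorem many_types : ∃ c : ℝ, 0 < c ∧ ∃ n₀ : ℕ, ∀ N ≥ n₀, ∃ n, N ≤ 4 * n ∧ n ≤ N ∧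
    c * n / Real.log n ^ 2 ≤ (types n).card := by
  obtain ⟨M₀, hM₀, hc⟩ := count
  obtain ⟨x₀, hx1, hx⟩ := ev_log
  refine ⟨1 / 2000, by norm_num, 6 * (M₀ + ⌈x₀⌉₊ + 100) + 6, fun N hN => ?_⟩
  set M := N / 6 with hM
  have hM1 : M₀ + ⌈x₀⌉₊ + 100 ≤ M := by omega
  have hMR : (100 : ℝ) ≤ M := by
    have : 100 ≤ M := by omega
    exact_mod_cast this
  have hx₀M : x₀ ≤ M := (Nat.le_ceil _).trans (by exact_mod_cast (by omega : ⌈x₀⌉₊ ≤ M))
  have hk := hc M (by omega)
  set k := (Pr M).card with hkdef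
  set L := Real.log (3 * M) with hL
  have hlM : 1 < Real.log M := by
    rw [Real.lt_log_iff_exp_lt (by linarith)]
    linarith [Real.exp_one_lt_d9]
  have hL2 : L ≤ 2 * Real.log M := by
    rw [hL, show 2 * Real.log M = Real.log ((M : ℝ) ^ 2) by rw [Real.log_pow]; norm_num]
    apply Real.log_le_log (by linarith)
    nlinarith
  have hL1 : 1 < L := by
    rw [hL]
    exact hlM.trans_le (Real.log_le_log (by linarith) (by linarith))
  have hLs : L ≤ 1 / 100 * (3 * M) := by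
    have a1 := hx (3 * M) (by linarith)
    have a2 : Real.sqrt (3 * M) ≤ 3 * M := by
      rw [Real.sqrt_le_left (by positivity)]
      nlinarith
    linarith
  have hk2 : (2 : ℝ) ≤ k := by
    by_contra h
    push Not at h
    have : (k : ℝ) * L < 2 * L := mul_lt_mul_of_pos_right h (by linarith)
    linarith
  have hkk := pairs (Pr M)
  set Pp := ((Pr M) ×ˢ (Pr M)).filter (fun a => a.1 < a.2) with hPp
  have hPc : (M : ℝ) ^ 2 / (16 * L ^ 2) ≤ Pp.card := by
    have e1 : (2 : ℝ) * Pp.card + k = k * k := by exact_mod_cast hkk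
    have e2 : (k : ℝ) ^ 2 / 4 ≤ Pp.card := by nlinarith
    refine le_trans ?_ e2
    have e3 : (M : ℝ) / (2 * L) ≤ k := by
      rw [div_le_iff₀ (by linarith)]
      linarith
    have e4 : ((M : ℝ) / (2 * L)) ^ 2 ≤ (k : ℝ) ^ 2 :=
      pow_le_pow_left₀ (by positivity) e3 2
    have e5 : ((M : ℝ) / (2 * L)) ^ 2 = M ^ 2 / (4 * L ^ 2) := by
      rw [div_pow]
      ring
    rw [e5] at e4
    have e6 : (M : ℝ) ^ 2 / (16 * L ^ 2) = M ^ 2 / (4 * L ^ 2) / 4 := by
      rw [div_div]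
      ring
    rw [e6]
    linarith
  obtain ⟨n, hn, hn2⟩ := Finset.exists_le_card_fiber_of_nsmul_le_card_of_maps_to
    (s := Pp) (t := Icc (2 * M + 1) (6 * M)) (f := fun a => a.1 + a.2)
    (b := (M : ℝ) / (64 * L ^ 2)) (by
      intro a ha
      simp only [hPp, Pr, Finset.mem_filter, Finset.mem_product, Finset.mem_Ioc] at ha
      simp only [Finset.mem_Icc]
      omega) ⟨2 * M + 1, Finset.mem_Icc.2 ⟨le_rfl, by omega⟩⟩ (by
      rw [nsmul_eq_mul, Nat.card_Icc]
      refine le_trans (le_of_eq ?_) hPc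
      have : ((6 * M + 1 - (2 * M + 1) : ℕ) : ℝ) = 4 * M := by
        have : 6 * M + 1 - (2 * M + 1) = 4 * M := by omega
        rw [this]
        push_cast
        ring
      rw [this]
      field_simp
      ring)
  have hn' := Finset.mem_Icc.1 hn
  refine ⟨n, by omega, by omega, ?_⟩
  have hsub : Pp.filter (fun a => a.1 + a.2 = n) ⊆ types n := by
    intro a ha
    simp only [hPp, Pr, Finset.mem_filter, Finset.mem_product, Finset.mem_Ioc] at ha
    unfold types
    simp only [Finset.mem_filter, Finset.mem_product, Finset.mem_range]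
    obtain ⟨⟨⟨⟨⟨a1, a2⟩, a3⟩, ⟨a4, a5⟩, a6⟩, a7⟩, a8⟩ := ha
    exact ⟨⟨by omega, by omega⟩, a3, a6, a7, by omega, a8⟩
  have h1 : (M : ℝ) / (64 * L ^ 2) ≤ (types n).card :=
    hn2.trans (by exact_mod_cast Finset.card_le_card hsub)
  refine le_trans ?_ h1
  have hnR : (n : ℝ) ≤ 6 * M := by exact_mod_cast hn'.2
  have hnM : (M : ℝ) ≤ n := by exact_mod_cast (by omega : M ≤ n)
  have hln : Real.log M ≤ Real.log n := Real.log_le_log (by linarith) hnM
  have hsq : L ^ 2 ≤ 4 * Real.log n ^ 2 := by nlinarith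
  rw [div_le_div_iff₀ (by nlinarith) (by positivity)]
  nlinarith [mul_le_mul_of_nonneg_left hsq (show (0 : ℝ) ≤ n by positivity), sq_nonneg (Real.log n),
    mul_le_mul_of_nonneg_right hnR (sq_nonneg (Real.log n))]

end Pool.Agent.CJB
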