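import Pool.Agent.CJB.Defs2

/-! Success of a decision tree implies a violated test on the formal path (module CJB_TRA). -/

namespace Pool.Agent.CJB
open Polynomial

namespace TRA

theorem getD_map_val {S S' : Type*} [CommRing S] [CommRing S'] [Algebra (ZMod 2) S]
    [Algebra (ZMod 2) S'] (φ : S →ₐ[ZMod 2] S') (y : ℕ → S) (gs : List Gate) (i : ℕ) :
    φ ((gs.map (Gate.val y)).getD i 0) = (gs.map (Gate.val (fun j => φ (y j)))).getD i 0 := by
  induction gs generalizing i with
  | nil => simp
  | cons c gs ih =>
    cases i with
    | zero =>
      cases c with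
      | conj j e => simp [Gate.val]
      | trace j m => simp [Gate.val]
    | succ i => simpa using ih i

theorem value_map {S S' : Type*} [CommRing S] [CommRing S'] [Algebra (ZMod 2) S]
    [Algebra (ZMod 2) S'] (φ : S →ₐ[ZMod 2] S') (y : ℕ → S) (gs : List Gate)
    (P : MvPolynomial ℕ (ZMod 2)) :
    φ (value y gs P) = value (fun j => φ (y j)) gs P := by
  unfold value
  rw [← AlgHom.comp_apply, MvPolynomial.comp_aeval]
  congr 2
  funext i
  exact getD_map_val φ y gs i

theorem value_env {n R : ℕ} (r : Fin R → degreeLT (ZMod 2) n) (gs : List Gate)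
    (P : MvPolynomial ℕ (ZMod 2)) :
    value (env r) gs P = MvPolynomial.aeval (tup r) (fval R gs P) := by
  unfold fval
  rw [value_map]
  congr 1
  funext j
  unfold fenv
  cases j with
  | zero =>
    rw [dif_pos (Nat.succ_pos R), MvPolynomial.aeval_X]
    rfl
  | succ j =>
    by_cases h : j < R
    · rw [dif_pos (Nat.succ_lt_succ h), MvPolynomial.aeval_X]
      have h1 : (⟨j + 1, Nat.succ_lt_succ h⟩ : Fin (R + 1)) = Fin.succ ⟨j, h⟩ := rfl
      rw [h1, tup, Fin.cons_succ]
      simp [env, h]
    · rw [dif_neg (fun h' => h (Nat.lt_of_succ_lt_succ h')), map_zero]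
      simp [env, h]

end TRA

open TRA in
/-- CJB_TRA. -/
theorem finds_viol {n R : ℕ} (g h : (ZMod 2)[X]) (hg : Irreducible g) (hh : Irreducible h)
    (r : Fin R → degreeLT (ZMod 2) n) (A : Alg) (gs : List Gate)
    (hA : Finds (g * h) (env r) gs A) :
    Viol R (fun V => g ∣ MvPolynomial.aeval (tup r) V) gs A ∨
      Viol R (fun V => h ∣ MvPolynomial.aeval (tup r) V) gs A := by
  induction A generalizing gs with
  | stop => exact hA.elim
  | gate c next ih => exact ih (gs ++ [c]) hA
  | test P zero unit ihz ihu =>
    have hv := value_env r gs P
    by_cases h0 : fval R gs P = 0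
    · have hv0 : value (env r) gs P = 0 := by rw [hv, h0, map_zero]
      have h1 : Finds (g * h) (env r) gs zero := by
        rcases hA with hA | hA | hA
        · exact hA.2
        · exfalso
          have h2 := hA.1
          rw [hv0, isCoprime_zero_right] at h2
          exact hg.not_isUnit (isUnit_of_mul_isUnit_left h2)
        · exfalso
          rw [hv0] at hA
          exact hA.1 (dvd_zero _)
      rcases ihz gs h1 with h2 | h2
      · left
        simp only [Viol, if_pos h0]
        exact h2
      · right
        simp only [Viol, if_pos h0]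
        exact h2
    · by_cases hgv : g ∣ value (env r) gs P
      · left
        simp only [Viol, if_neg h0]
        left
        rw [← hv]
        exact hgv
      by_cases hhv : h ∣ value (env r) gs P
      · right
        simp only [Viol, if_neg h0]
        left
        rw [← hv]
        exact hhv
      have hcop : IsCoprime (g * h) (value (env r) gs P) :=
        (hg.coprime_iff_not_dvd.2 hgv).mul_left (hh.coprime_iff_not_dvd.2 hhv)
      have h1 : Finds (g * h) (env r) gs unit := by
        rcases hA with hA | hA | hA
        · exact (hgv (dvd_of_mul_right_dvd hA.1)).elim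
        · exact hA.2
        · exact (hA.2 hcop).elim
      rcases ihu gs h1 with h2 | h2
      · left
        simp only [Viol, if_neg h0]
        exact Or.inr h2
      · right
        simp only [Viol, if_neg h0]
        exact Or.inr h2

end Pool.Agent.CJB
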