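import Pool.Agent.CJB.Defs2

/-!
# CJB_TRB: union bound along the formal path
-/

set_option autoImplicit false

namespace Pool.Agent.CJB
open Polynomial

namespace TRB

theorem pre_path (R : ℕ) (A : Alg) : ∀ gs : List Gate, gs <+: pathGates R gs A := by
  induction A with
  | stop => intro gs; rw [pathGates]
  | gate c next ih =>
    intro gs
    rw [pathGates]
    obtain ⟨s, hs⟩ := ih (gs ++ [c])
    exact ⟨[c] ++ s, by rw [← List.append_assoc]; exact hs⟩
  | test P zero unit ihz ihu =>
    intro gs
    rw [pathGates]
    split_ifs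
    · exact ihz gs
    · exact ihu gs

theorem card_or_le {Y : Type} [Finite Y] (p q : Y → Prop) :
    Nat.card {y : Y // p y ∨ q y} ≤ Nat.card {y : Y // p y} + Nat.card {y : Y // q y} := by
  have h := Set.ncard_union_le {y : Y | p y} {y : Y | q y}
  exact h

end TRB

/-- CJB_TRB: union bound along the formal path -/
theorem card_viol {L B R : ℕ} {Y : Type} [Finite Y]
    (W : Y → MvPolynomial (Fin (R + 1)) (ZMod 2) → Prop) (M : ℕ) (A : Alg) (gs : List Gate)
    (k T : ℕ) (hA : Within L B R k T A)
    (hW : ∀ gs' P, gs' <+: pathGates R gs A → P.totalDegree ≤ 2 ^ L → fval R gs' P ≠ 0 →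
      Nat.card {y : Y // W y (fval R gs' P)} ≤ M) :
    Nat.card {y : Y // Viol R (W y) gs A} ≤ T * M := by
  induction A generalizing gs k T with
  | stop =>
    have h : IsEmpty {y : Y // Viol R (W y) gs Alg.stop} := by
      constructor
      rintro ⟨y, hy⟩
      rw [Viol] at hy
      exact hy
    rw [Nat.card_of_isEmpty]
    exact Nat.zero_le _
  | gate c next ih =>
    rw [Within] at hA
    obtain ⟨_, _, k', _, h⟩ := hA
    have h2 := ih (gs ++ [c]) k' T h (by
      intro gs' P h1 h2 h3
      exact hW gs' P (by rw [pathGates]; exact h1) h2 h3)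
    simp only [Viol]
    exact h2
  | test P zero unit ihz ihu =>
    rw [Within] at hA
    obtain ⟨hP, T', rfl, hz, hu⟩ := hA
    by_cases h0 : fval R gs P = 0
    · have h2 := ihz gs k T' hz (by
        intro gs' P' h1 h2 h3
        exact hW gs' P' (by rw [pathGates, if_pos h0]; exact h1) h2 h3)
      simp only [Viol, if_pos h0]
      exact h2.trans (Nat.mul_le_mul_right _ (Nat.le_succ _))
    · have h2 := ihu gs k T' hu (by
        intro gs' P' h1 h2 h3
        exact hW gs' P' (by rw [pathGates, if_neg h0]; exact h1) h2 h3)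
      have h3 := hW gs P (TRB.pre_path R _ gs) hP h0
      simp only [Viol, if_neg h0]
      calc Nat.card {y : Y // W y (fval R gs P) ∨ Viol R (W y) gs unit}
          ≤ Nat.card {y : Y // W y (fval R gs P)} + Nat.card {y : Y // Viol R (W y) gs unit} :=
            TRB.card_or_le _ _
        _ ≤ M + T' * M := Nat.add_le_add h3 h2
        _ = (T' + 1) * M := by ring

end Pool.Agent.CJB
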