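import Pool.Agent.CJB.Defs2

/-! CJB_TRC: the formal path. -/

namespace Pool.Agent.CJB
open Polynomial

theorem pathGates_within {L B R : ℕ} (A : Alg) (gs : List Gate) (k T : ℕ)
    (hA : Within L B R k T A) :
    gs <+: pathGates R gs A ∧ (pathGates R gs A).length ≤ gs.length + k ∧
      ∀ c ∈ pathGates R gs A, c ∈ gs ∨ (c.base ≤ R ∧ c.size < 2 ^ B) := by
  induction A generalizing gs k T with
  | stop =>
    rw [pathGates]
    exact ⟨List.prefix_refl gs, Nat.le_add_right _ _, fun c hc => Or.inl hc⟩
  | gate c next ih =>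
    obtain ⟨h1, h2, k', rfl, h3⟩ := hA
    obtain ⟨g1, g2, g3⟩ := ih (gs ++ [c]) k' T h3
    rw [pathGates]
    refine ⟨(List.prefix_append gs [c]).trans g1, ?_, fun x hx => ?_⟩
    · rw [List.length_append, List.length_singleton] at g2
      omega
    · rcases g3 x hx with h | h
      · rw [List.mem_append, List.mem_singleton] at h
        rcases h with h | h
        · exact Or.inl h
        · rw [h]
          exact Or.inr ⟨h1, h2⟩
      · exact Or.inr h
  | test P zero unit ih1 ih2 =>
    obtain ⟨_, T', rfl, h1, h2⟩ := hA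
    rw [pathGates]
    split_ifs with h
    · exact ih1 gs k T' h1
    · exact ih2 gs k T' h2

end Pool.Agent.CJB
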