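import Pool.Agent.CJB.SZ
import Pool.Agent.CJB.IRA
import Pool.Agent.CJB.IRB
import Pool.Agent.CJB.TRA
import Pool.Agent.CJB.TRB
import Pool.Agent.CJB.TRC
import Pool.Agent.CJB.BAD
import Pool.Agent.CJB.NUM
import Pool.Agent.CJB.BSG

/-! Deterministic algorithms on one type of inputs. -/

namespace Pool.Agent.CJB
open Polynomial

theorem good_mono {E E' : Finset ℕ} (h : E' ⊆ E) {L p : ℕ} (hE : Good E L p) : Good E' L p :=
  fun a ha b hb t ht => hE a (h ha) b (h hb) t ht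

theorem exps_mono {gs gs' : List Gate} (h : gs' <+: gs) : exps gs' ⊆ exps gs := by
  intro e he
  unfold exps at he ⊢
  rw [List.mem_toFinset, List.mem_append] at he ⊢
  rcases he with he | he
  · left
    rw [List.mem_map] at he ⊢
    obtain ⟨c, hc, rfl⟩ := he
    exact ⟨c, h.subset hc, rfl⟩
  · right
    rw [List.mem_map] at he ⊢
    obtain ⟨c, hc, rfl⟩ := he
    exact ⟨c, h.subset hc, rfl⟩

theorem card_exps (gs : List Gate) : (exps gs).card ≤ 2 * gs.length := by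
  unfold exps
  refine (List.toFinset_card_le _).trans ?_
  simp [two_mul]

theorem mem_exps_le {gs : List Gate} {B : ℕ} (h : ∀ c ∈ gs, c.size < 2 ^ B) {e : ℕ}
    (he : e ∈ exps gs) : e ≤ 2 ^ B := by
  unfold exps at he
  rw [List.mem_toFinset, List.mem_append, List.mem_map, List.mem_map] at he
  rcases he with ⟨c, hc, rfl⟩ | ⟨c, hc, rfl⟩
  · have := h c hc
    cases c <;> simp [Gate.hi, Gate.size] at this ⊢ <;> omega
  · have := h c hc
    cases c <;> simp [Gate.lo, Gate.size] at this ⊢ <;> omega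

/-- the random experiment without coins -/
abbrev Out (R : ℕ) (a : ℕ × ℕ) : Type :=
  Irr a.1 × Irr a.2 × (Fin R → degreeLT (ZMod 2) (a.1 + a.2))

theorem finite_degreeLT (n : ℕ) : Finite (degreeLT (ZMod 2) n) :=
  Finite.of_equiv _ (degreeLTEquiv (ZMod 2) n).symm.toEquiv

theorem card_degreeLT (n : ℕ) : Nat.card (degreeLT (ZMod 2) n) = 2 ^ n := by
  rw [Nat.card_congr (degreeLTEquiv (ZMod 2) n).toEquiv, Nat.card_eq_fintype_card]
  simp [ZMod.card]

theorem finite_out (R : ℕ) (a : ℕ × ℕ) (h1 : a.1.Prime) (h2 : a.2.Prime) : Finite (Out R a) := by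
  haveI := (card_irr a.1 h1).1
  haveI := (card_irr a.2 h2).1
  haveI := finite_degreeLT (a.1 + a.2)
  infer_instance

theorem card_out (R : ℕ) (a : ℕ × ℕ) :
    Nat.card (Out R a) = Nat.card (Irr a.1) * Nat.card (Irr a.2) * (2 ^ (a.1 + a.2)) ^ R := by
  rw [Nat.card_prod, Nat.card_prod, Nat.card_fun, card_degreeLT]
  simp [mul_assoc]

/-- one violated test: bound for the factor `g` of degree `p` -/
theorem one_test {R L G p q : ℕ} (hp : p.Prime) (hodd : Odd p) (hq : q.Prime) (n : ℕ)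
    (hn : p ≤ n) (gs : List Gate) (P : MvPolynomial ℕ (ZMod 2))
    (hb : ∀ c ∈ gs, c.base ≤ R) (hgood : Good (exps gs) L p) (hG : (exps gs).card * G < p)
    (hGp : G < p) (hP : P.totalDegree ≤ 2 ^ L) (hV : fval R gs P ≠ 0) :
    Nat.card {x : Irr p × (Fin R → degreeLT (ZMod 2) n) //
        x.1.1 ∣ MvPolynomial.aeval (tup x.2) (fval R gs P)} * 2 ^ G ≤
      2 ^ L * p * (Nat.card (Irr p) * (2 ^ n) ^ R) := by
  classical
  haveI : Fintype (GaloisField 2 p) := Fintype.ofFinite _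
  have hF : Fintype.card (GaloisField 2 p) = 2 ^ p := by
    rw [← Nat.card_eq_fintype_card, GaloisField.card 2 p hp.ne_zero]
  have h1 := card_pairs p n R hp hn (fval R gs P) (GaloisField 2 p) hF
  have h2 := zeros hodd (GaloisField 2 p) hF gs P hb hgood hG hGp hP hV
  have h3 := (card_irr p hp).2
  set c := Nat.card {x : Irr p × (Fin R → degreeLT (ZMod 2) n) //
        x.1.1 ∣ MvPolynomial.aeval (tup x.2) (fval R gs P)} with hc
  set z := Nat.card {ρ : Fin (R + 1) → GaloisField 2 p //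
    MvPolynomial.aeval ρ (fval R gs P) = 0} with hz
  have h4 : c * 2 ^ G * 2 ≤ 2 ^ L * p * (Nat.card (Irr p) * (2 ^ n) ^ R) * 2 := by
    calc c * 2 ^ G * 2 = c * 2 ^ (G + 1) := by rw [pow_succ]; ring
      _ ≤ (2 ^ (n - p)) ^ R * z * 2 ^ (G + 1) := Nat.mul_le_mul_right _ h1
      _ = (2 ^ (n - p)) ^ R * (z * 2 ^ (G + 1)) := by ring
      _ ≤ (2 ^ (n - p)) ^ R * (2 ^ L * (2 ^ p) ^ (R + 1)) := Nat.mul_le_mul_left _ h2
      _ = 2 ^ L * ((2 ^ (n - p)) * 2 ^ p) ^ R * 2 ^ p := by rw [mul_pow, pow_succ]; ring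
      _ = 2 ^ L * (2 ^ n) ^ R * 2 ^ p := by
          rw [← pow_add, Nat.sub_add_cancel hn]
      _ ≤ 2 ^ L * (2 ^ n) ^ R * (2 * p * Nat.card (Irr p)) := Nat.mul_le_mul_left _ h3
      _ = _ := by ring
  exact Nat.le_of_mul_le_mul_right h4 (by norm_num)

end Pool.Agent.CJB
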