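import Pool.Agent.CJB.Fin1

/-! Deterministic algorithms on one type of inputs: the bound for good types. -/

namespace Pool.Agent.CJB
open Polynomial

/-- forget the middle factor -/
def splitB {A B C : Type} (W : A × C → Prop) :
    {y : A × B × C // W (y.1, y.2.2)} ≃ B × {x : A × C // W x} where
  toFun y := (y.1.2.1, ⟨(y.1.1, y.1.2.2), y.2⟩)
  invFun z := ⟨(z.2.1.1, z.1, z.2.1.2), z.2.2⟩
  left_inv y := rfl
  right_inv z := rfl

/-- forget the first factor -/
def splitA {A B C : Type} (W : B × C → Prop) :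
    {y : A × B × C // W y.2} ≃ A × {x : B × C // W x} where
  toFun y := (y.1.1, ⟨y.1.2, y.2⟩)
  invFun z := ⟨(z.1, z.2.1), z.2.2⟩
  left_inv y := rfl
  right_inv z := rfl

theorem det_bound {L B R k G : ℕ} (A : Alg) (hA : Within L B R k (2 ^ L) A) (a : ℕ × ℕ)
    (h1 : a.1.Prime) (h2 : a.2.Prime) (o1 : Odd a.1) (o2 : Odd a.2)
    (g1 : Good (exps (pathGates R [] A)) L a.1) (g2 : Good (exps (pathGates R [] A)) L a.2)
    (hG1 : 2 * k * G < a.1) (hG2 : 2 * k * G < a.2) (hk : 1 ≤ k) :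
    Nat.card {y : Out R a // Finds (y.1.1 * y.2.1.1) (env y.2.2) [] A} * 2 ^ G ≤
      2 ^ L * (2 ^ L * (a.1 + a.2) * Nat.card (Out R a)) := by
  classical
  haveI := finite_out R a h1 h2
  haveI f1 := (card_irr a.1 h1).1
  haveI f2 := (card_irr a.2 h2).1
  haveI := finite_degreeLT (a.1 + a.2)
  obtain ⟨-, hlen, hmem⟩ := pathGates_within A [] k (2 ^ L) hA
  simp only [List.length_nil, zero_add] at hlen
  have hmem' : ∀ c ∈ pathGates R [] A, c.base ≤ R ∧ c.size < 2 ^ B := by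
    intro c hc
    rcases hmem c hc with h | h
    · simp at h
    · exact h
  have hcardE : ∀ gs', gs' <+: pathGates R [] A → (exps gs').card ≤ 2 * k := fun gs' h =>
    (card_exps gs').trans (Nat.mul_le_mul_left 2 (h.length_le.trans hlen))
  have hGk : G ≤ 2 * k * G := Nat.le_mul_of_pos_left G (by omega)
  -- the two bounds
  set M1 := 2 ^ L * a.1 * Nat.card (Out R a) / 2 ^ G with hM1
  set M2 := 2 ^ L * a.2 * Nat.card (Out R a) / 2 ^ G with hM2
  have hW1 : ∀ gs' P, gs' <+: pathGates R [] A → P.totalDegree ≤ 2 ^ L → fval R gs' P ≠ 0 →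
      Nat.card {y : Out R a // y.1.1 ∣ MvPolynomial.aeval (tup y.2.2) (fval R gs' P)} ≤ M1 := by
    intro gs' P hpre hP hV
    rw [hM1, Nat.le_div_iff_mul_le (by positivity)]
    have h := one_test h1 o1 h2 (a.1 + a.2) (Nat.le_add_right _ _) gs' P
      (fun c hc => (hmem' c (hpre.subset hc)).1) (good_mono (exps_mono hpre) g1)
      (lt_of_le_of_lt (Nat.mul_le_mul_right G (hcardE gs' hpre)) hG1)
      (lt_of_le_of_lt hGk hG1) hP hV
    have e := Nat.card_congr (splitB (A := Irr a.1) (B := Irr a.2)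
      (C := Fin R → degreeLT (ZMod 2) (a.1 + a.2))
      (fun x => x.1.1 ∣ MvPolynomial.aeval (tup x.2) (fval R gs' P)))
    rw [Nat.card_prod] at e
    rw [e, card_out]
    calc _ = Nat.card (Irr a.2) * (Nat.card {x : Irr a.1 × (Fin R → degreeLT (ZMod 2) (a.1 + a.2)) //
          x.1.1 ∣ MvPolynomial.aeval (tup x.2) (fval R gs' P)} * 2 ^ G) := by ring
      _ ≤ Nat.card (Irr a.2) * (2 ^ L * a.1 * (Nat.card (Irr a.1) * (2 ^ (a.1 + a.2)) ^ R)) :=
          Nat.mul_le_mul_left _ h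
      _ = _ := by ring
  have hW2 : ∀ gs' P, gs' <+: pathGates R [] A → P.totalDegree ≤ 2 ^ L → fval R gs' P ≠ 0 →
      Nat.card {y : Out R a // y.2.1.1 ∣ MvPolynomial.aeval (tup y.2.2) (fval R gs' P)} ≤ M2 := by
    intro gs' P hpre hP hV
    rw [hM2, Nat.le_div_iff_mul_le (by positivity)]
    have h := one_test h2 o2 h1 (a.1 + a.2) (Nat.le_add_left _ _) gs' P
      (fun c hc => (hmem' c (hpre.subset hc)).1) (good_mono (exps_mono hpre) g2)
      (lt_of_le_of_lt (Nat.mul_le_mul_right G (hcardE gs' hpre)) hG2)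
      (lt_of_le_of_lt hGk hG2) hP hV
    have e := Nat.card_congr (splitA (A := Irr a.1) (B := Irr a.2)
      (C := Fin R → degreeLT (ZMod 2) (a.1 + a.2))
      (fun x => x.1.1 ∣ MvPolynomial.aeval (tup x.2) (fval R gs' P)))
    rw [Nat.card_prod] at e
    rw [e, card_out]
    calc _ = Nat.card (Irr a.1) * (Nat.card {x : Irr a.2 × (Fin R → degreeLT (ZMod 2) (a.1 + a.2)) //
          x.1.1 ∣ MvPolynomial.aeval (tup x.2) (fval R gs' P)} * 2 ^ G) := by ring
      _ ≤ Nat.card (Irr a.1) * (2 ^ L * a.2 * (Nat.card (Irr a.2) * (2 ^ (a.1 + a.2)) ^ R)) :=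
          Nat.mul_le_mul_left _ h
      _ = _ := by ring
  have c1 := card_viol (fun (y : Out R a) V => y.1.1 ∣ MvPolynomial.aeval (tup y.2.2) V) M1 A []
    k (2 ^ L) hA hW1
  have c2 := card_viol (fun (y : Out R a) V => y.2.1.1 ∣ MvPolynomial.aeval (tup y.2.2) V) M2 A []
    k (2 ^ L) hA hW2
  have hle : Nat.card {y : Out R a // Finds (y.1.1 * y.2.1.1) (env y.2.2) [] A} ≤
      Nat.card {y : Out R a // Viol R (fun V => y.1.1 ∣ MvPolynomial.aeval (tup y.2.2) V) [] A} +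
      Nat.card {y : Out R a // Viol R (fun V => y.2.1.1 ∣ MvPolynomial.aeval (tup y.2.2) V) [] A} := by
    haveI : Fintype (Out R a) := Fintype.ofFinite _
    simp only [Nat.card_eq_fintype_card, Fintype.card_subtype]
    refine (Finset.card_le_card ?_).trans (Finset.card_union_le _ _)
    intro y hy
    rw [Finset.mem_filter] at hy
    rw [Finset.mem_union, Finset.mem_filter, Finset.mem_filter]
    rcases finds_viol y.1.1 y.2.1.1 y.1.2.2.1 y.2.1.2.2.1 y.2.2 A [] hy.2 with h | h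
    · exact Or.inl ⟨Finset.mem_univ _, h⟩
    · exact Or.inr ⟨Finset.mem_univ _, h⟩
  calc _ ≤ (2 ^ L * M1 + 2 ^ L * M2) * 2 ^ G := Nat.mul_le_mul_right _ (hle.trans (add_le_add c1 c2))
    _ = 2 ^ L * (M1 * 2 ^ G + M2 * 2 ^ G) := by ring
    _ ≤ 2 ^ L * (2 ^ L * a.1 * Nat.card (Out R a) + 2 ^ L * a.2 * Nat.card (Out R a)) := by
        refine Nat.mul_le_mul_left _ (add_le_add (Nat.div_mul_le_self _ _) (Nat.div_mul_le_self _ _))
    _ = _ := by ring

/-- the fraction of outcomes on which a deterministic algorithm succeeds -/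
noncomputable def dprob (A : Alg) (R : ℕ) (a : ℕ × ℕ) : ℝ :=
  (Nat.card {y : Out R a // Finds (y.1.1 * y.2.1.1) (env y.2.2) [] A} : ℝ) / Nat.card (Out R a)

theorem dprob_nonneg (A : Alg) (R : ℕ) (a : ℕ × ℕ) : 0 ≤ dprob A R a := by
  unfold dprob; positivity

theorem dprob_le_one (A : Alg) (R : ℕ) (a : ℕ × ℕ) (h1 : a.1.Prime) (h2 : a.2.Prime) :
    dprob A R a ≤ 1 := by
  haveI := finite_out R a h1 h2
  unfold dprob
  refine div_le_one_of_le₀ ?_ (by positivity)
  exact_mod_cast Nat.card_le_card_of_injective Subtype.val Subtype.val_injective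

theorem dprob_good {L B R k G : ℕ} (A : Alg) (hA : Within L B R k (2 ^ L) A) (a : ℕ × ℕ)
    (h1 : a.1.Prime) (h2 : a.2.Prime) (o1 : Odd a.1) (o2 : Odd a.2)
    (g1 : Good (exps (pathGates R [] A)) L a.1) (g2 : Good (exps (pathGates R [] A)) L a.2)
    (hG1 : 2 * k * G < a.1) (hG2 : 2 * k * G < a.2) (hk : 1 ≤ k) :
    dprob A R a ≤ 2 ^ L * (2 ^ L * ((a.1 : ℝ) + a.2)) / 2 ^ G := by
  have h := det_bound A hA a h1 h2 o1 o2 g1 g2 hG1 hG2 hk
  unfold dprob
  have h' : (Nat.card {y : Out R a // Finds (y.1.1 * y.2.1.1) (env y.2.2) [] A} : ℝ) * 2 ^ G ≤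
      2 ^ L * (2 ^ L * ((a.1 : ℝ) + a.2) * Nat.card (Out R a)) := by exact_mod_cast h
  rcases Nat.eq_zero_or_pos (Nat.card (Out R a)) with h0 | h0
  · rw [h0]
    simp only [Nat.cast_zero, div_zero]
    positivity
  · have h0' : (0 : ℝ) < Nat.card (Out R a) := by exact_mod_cast h0
    rw [div_le_div_iff₀ h0' (by positivity)]
    calc _ ≤ _ := h'
      _ = _ := by ring

/-- a randomised algorithm is an average of deterministic ones -/
theorem prob_eq {Ω : Type} [Fintype Ω] (A : Ω → Alg) (R : ℕ) (a : ℕ × ℕ) (h1 : a.1.Prime)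
    (h2 : a.2.Prime) :
    prob A R a = (∑ ω, dprob (A ω) R a) / Fintype.card Ω := by
  classical
  haveI := finite_out R a h1 h2
  unfold prob dprob
  have e : Nat.card {t : Outcome Ω R a // Finds (t.2.1.1 * t.2.2.1.1) (env t.2.2.2) [] (A t.1)} =
      ∑ ω, Nat.card {y : Out R a // Finds (y.1.1 * y.2.1.1) (env y.2.2) [] (A ω)} := by
    rw [← Nat.card_sigma]
    refine Nat.card_congr
      { toFun := fun s => ⟨s.1.1, s.1.2, s.2⟩
        invFun := fun s => ⟨(s.1, s.2.1), s.2.2⟩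
        left_inv := fun s => rfl
        right_inv := fun s => rfl }
  have e2 : Nat.card (Outcome Ω R a) = Fintype.card Ω * Nat.card (Out R a) := by
    rw [← Nat.card_eq_fintype_card, ← Nat.card_prod]
  rw [e, e2, Nat.cast_sum, ← Finset.sum_div, div_div, Nat.cast_mul, mul_comm (Fintype.card Ω : ℝ)]

end Pool.Agent.CJB
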