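import Pool.Agent.CJB.Fin2

/-! The sum over the types. -/

namespace Pool.Agent.CJB
open Polynomial

theorem mem_types {n : ℕ} {a : ℕ × ℕ} (h : a ∈ types n) :
    a.1.Prime ∧ a.2.Prime ∧ a.1 < a.2 ∧ a.2 ≤ 3 * a.1 ∧ a.1 + a.2 = n := by
  unfold types at h
  rw [Finset.mem_filter] at h
  exact h.2

theorem sum_det {L B R k n : ℕ} (A : Alg) (hA : Within L B R k (2 ^ L) A) (hk : 1 ≤ k)
    (hn : 64 ≤ n) :
    ∑ a ∈ types n, dprob A R a ≤
      2 * (Nat.card {p : ℕ // p.Prime ∧ n ≤ 4 * p ∧ p ≤ n ∧
        ¬ Good (exps (pathGates R [] A)) L p} : ℝ) +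
      (types n).card * (2 ^ L * (2 ^ L * (n : ℝ)) / 2 ^ ((n - 1) / (8 * k))) := by
  classical
  set E := exps (pathGates R [] A) with hE
  set δ : ℝ := 2 ^ L * (2 ^ L * (n : ℝ)) / 2 ^ ((n - 1) / (8 * k)) with hδ
  have hδ0 : 0 ≤ δ := by positivity
  -- pointwise bound
  have hpt : ∀ a ∈ types n, dprob A R a ≤
      (if Good E L a.1 then 0 else 1) + (if Good E L a.2 then 0 else 1) + δ := by
    intro a ha
    obtain ⟨h1, h2, h12, h3, hs⟩ := mem_types ha
    by_cases g1 : Good E L a.1
    · by_cases g2 : Good E L a.2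
      · have hG : 8 * k * ((n - 1) / (8 * k)) ≤ n - 1 := Nat.mul_div_le _ _
        have e1 : 8 * k * ((n - 1) / (8 * k)) = 4 * (2 * k * ((n - 1) / (8 * k))) := by ring
        have hG1 : 2 * k * ((n - 1) / (8 * k)) < a.1 := by omega
        have hG2 : 2 * k * ((n - 1) / (8 * k)) < a.2 := by omega
        have o1 : Odd a.1 := h1.odd_of_ne_two (by omega)
        have o2 : Odd a.2 := h2.odd_of_ne_two (by omega)
        have := dprob_good A hA a h1 h2 o1 o2 g1 g2 hG1 hG2 hk
        rw [if_pos g1, if_pos g2]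
        have e : ((a.1 : ℝ) + a.2) = n := by exact_mod_cast hs
        rw [e] at this
        linarith
      · have := dprob_le_one A R a h1 h2
        rw [if_neg g2]
        split_ifs <;> linarith
    · have := dprob_le_one A R a h1 h2
      rw [if_neg g1]
      split_ifs <;> linarith
  refine (Finset.sum_le_sum hpt).trans ?_
  rw [Finset.sum_add_distrib, Finset.sum_add_distrib, Finset.sum_const, nsmul_eq_mul]
  -- counting the bad types
  haveI hfin : Finite {p : ℕ // p.Prime ∧ n ≤ 4 * p ∧ p ≤ n ∧ ¬ Good E L p} :=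
    Set.Finite.to_subtype ((Set.finite_Iic n).subset fun p hp => hp.2.2.1)
  have key : ∀ f : ℕ × ℕ → ℕ, (∀ a ∈ types n, (f a).Prime ∧ n ≤ 4 * f a ∧ f a ≤ n) →
      (∀ a ∈ types n, ∀ b ∈ types n, f a = f b → a = b) →
      ∑ a ∈ types n, (if Good E L (f a) then (0 : ℝ) else 1) ≤
      (Nat.card {p : ℕ // p.Prime ∧ n ≤ 4 * p ∧ p ≤ n ∧ ¬ Good E L p} : ℝ) := by
    intro f hf hinj
    have e : ∑ a ∈ types n, (if Good E L (f a) then (0 : ℝ) else 1) =
        (((types n).filter fun a => ¬ Good E L (f a)).card : ℝ) := by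
      rw [Finset.card_filter, Nat.cast_sum]
      refine Finset.sum_congr rfl fun a _ => ?_
      split_ifs <;> simp_all
    rw [e]
    have := Nat.card_le_card_of_injective
      (fun a : ((types n).filter fun a => ¬ Good E L (f a)) =>
        (⟨f a.1, (hf _ (Finset.mem_filter.1 a.2).1).1, (hf _ (Finset.mem_filter.1 a.2).1).2.1,
          (hf _ (Finset.mem_filter.1 a.2).1).2.2, (Finset.mem_filter.1 a.2).2⟩ :
          {p : ℕ // p.Prime ∧ n ≤ 4 * p ∧ p ≤ n ∧ ¬ Good E L p}))
      (fun a b hab => Subtype.ext (hinj _ (Finset.mem_filter.1 a.2).1 _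
        (Finset.mem_filter.1 b.2).1 (congrArg Subtype.val hab)))
    rw [Nat.card_eq_fintype_card, Fintype.card_coe] at this
    exact_mod_cast this
  have hb1 := key (fun a => a.1) (fun a ha => by
    obtain ⟨h1, h2, h12, h3, hs⟩ := mem_types ha
    exact ⟨h1, by omega, by omega⟩) (fun a ha b hb hab => by
    obtain ⟨-, -, -, -, hs⟩ := mem_types ha
    obtain ⟨-, -, -, -, hs'⟩ := mem_types hb
    exact Prod.ext hab (by omega))
  have hb2 := key (fun a => a.2) (fun a ha => by
    obtain ⟨h1, h2, h12, h3, hs⟩ := mem_types ha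
    exact ⟨h2, by omega, by omega⟩) (fun a ha b hb hab => by
    obtain ⟨-, -, -, -, hs⟩ := mem_types ha
    obtain ⟨-, -, -, -, hs'⟩ := mem_types hb
    exact Prod.ext (by omega) hab)
  linarith

/-- the trade-off -/
theorem tradeoff : ∃ C : ℝ, ∃ n₀ : ℕ, ∀ N ≥ n₀, ∃ n, N ≤ 4 * n ∧ n ≤ N ∧ (types n).Nonempty ∧
    ∀ (k L B R : ℕ), 1 ≤ k → 1 ≤ L → 1 ≤ B → ∀ (Ω : Type) [Finite Ω] [Nonempty Ω] (A : Ω → Alg),
      (∀ ω, Within L B R k (2 ^ L) (A ω)) →
      (∑ a ∈ types n, prob A R a) / (types n).card ≤ C * k ^ 2 * L * B * Real.log n / n := by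
  classical
  obtain ⟨C1, hC1⟩ := card_bad
  obtain ⟨c, hc, n₀, hn₀⟩ := many_types
  refine ⟨64 + 2 * |C1| / c + 1, max n₀ 256, fun N hN => ?_⟩
  obtain ⟨n, hNn, hnN, hcard⟩ := hn₀ N ((le_max_left _ _).trans hN)
  have hn64 : 64 ≤ n := by
    have := (le_max_right n₀ 256).trans hN
    omega
  have hnR : (64 : ℝ) ≤ n := by exact_mod_cast hn64
  have hn0 : (0 : ℝ) < n := by linarith
  have hlog1 : 1 ≤ Real.log n := by
    rw [← Real.log_exp 1]
    refine Real.log_le_log (Real.exp_pos 1) ?_
    have := Real.exp_one_lt_d9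
    linarith
  have htpos : (0 : ℝ) < (types n).card :=
    lt_of_lt_of_le (by positivity) hcard
  have hne : (types n).Nonempty := by
    rw [← Finset.card_pos]
    exact_mod_cast htpos
  refine ⟨n, hNn, hnN, hne, fun k L B R hk hL hB Ω _ _ A hA => ?_⟩
  haveI : Fintype Ω := Fintype.ofFinite Ω
  have hk' : (1 : ℝ) ≤ k := by exact_mod_cast hk
  have hL' : (1 : ℝ) ≤ L := by exact_mod_cast hL
  have hB' : (1 : ℝ) ≤ B := by exact_mod_cast hB
  have hΩ : (0 : ℝ) < Fintype.card Ω := by exact_mod_cast Fintype.card_pos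
  set Z : ℝ := k ^ 2 * L * B * Real.log n / n with hZ
  have hZ0 : 0 ≤ Z := by positivity
  have hgoal : (64 + 2 * |C1| / c + 1) * k ^ 2 * L * B * Real.log n / n =
      (64 + 2 * |C1| / c + 1) * Z := by rw [hZ]; ring
  rw [hgoal]
  have hC0 : 0 ≤ 2 * |C1| / c := by positivity
  -- the sum as an average over the coins
  have hsum : ∑ a ∈ types n, prob A R a =
      (∑ ω, ∑ a ∈ types n, dprob (A ω) R a) / Fintype.card Ω := by
    rw [Finset.sum_comm, Finset.sum_div]
    refine Finset.sum_congr rfl fun a ha => ?_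
    obtain ⟨h1, h2, -⟩ := mem_types ha
    exact prob_eq A R a h1 h2
  -- it is enough to bound each deterministic algorithm
  suffices h : ∀ ω, ∑ a ∈ types n, dprob (A ω) R a ≤
      (64 + 2 * |C1| / c + 1) * Z * (types n).card by
    rw [hsum, div_div, div_le_iff₀ (by positivity)]
    calc _ ≤ ∑ _ω : Ω, (64 + 2 * |C1| / c + 1) * Z * (types n).card :=
          Finset.sum_le_sum fun ω _ => h ω
      _ = _ := by rw [Finset.sum_const, Finset.card_univ, nsmul_eq_mul]; ring
  intro ω
  rcases le_or_gt 1 (64 * Z) with hbig | hsmall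
  · -- trivial bound
    calc ∑ a ∈ types n, dprob (A ω) R a ≤ ∑ _a ∈ types n, (1 : ℝ) :=
          Finset.sum_le_sum fun a ha => by
            obtain ⟨h1, h2, -⟩ := mem_types ha
            exact dprob_le_one _ R a h1 h2
      _ = 1 * (types n).card := by rw [Finset.sum_const, nsmul_eq_mul]; ring
      _ ≤ (64 + 2 * |C1| / c + 1) * Z * (types n).card := by
          refine mul_le_mul_of_nonneg_right ?_ htpos.le
          nlinarith
  · have hkL : 64 * (k * L * Real.log n) < n := by
      have h1 : (k : ℝ) * L * Real.log n ≤ k ^ 2 * L * B * Real.log n := by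
        have : (k : ℝ) * L * Real.log n * 1 ≤ k * L * Real.log n * (k * B) := by
          refine mul_le_mul_of_nonneg_left ?_ (by positivity)
          nlinarith
        calc _ = (k : ℝ) * L * Real.log n * 1 := by ring
          _ ≤ _ := this
          _ = _ := by ring
      have h2 : k ^ 2 * L * B * Real.log n = Z * n := by
        rw [hZ]; field_simp
      have h3 : 64 * Z * n < 1 * n := mul_lt_mul_of_pos_right hsmall hn0
      nlinarith
    have hL8 : 8 * (L + 2) ≤ n := by
      have : (8 : ℝ) * (L + 2) ≤ n := by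
        have h1 : (L : ℝ) ≤ k * L * Real.log n := by
          have : (L : ℝ) * 1 ≤ L * (k * Real.log n) := by
            refine mul_le_mul_of_nonneg_left ?_ (by positivity)
            nlinarith
          calc _ = (L : ℝ) * 1 := by ring
            _ ≤ _ := this
            _ = _ := by ring
        linarith
      exact_mod_cast this
    have hs := sum_det (A ω) (hA ω) hk hn64
    set E := exps (pathGates R [] (A ω)) with hE
    obtain ⟨-, hlen, hmem⟩ := pathGates_within (A ω) [] k (2 ^ L) (hA ω)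
    simp only [List.length_nil, zero_add] at hlen
    have hEc : E.card ≤ 2 * k := (card_exps _).trans (Nat.mul_le_mul_left 2 hlen)
    have hEB : ∀ e ∈ E, e ≤ 2 ^ B := fun e he => mem_exps_le (fun c hc => by
      rcases hmem c hc with h | h
      · simp at h
      · exact h.2) he
    have hbad := hC1 E k L B n hk hL hB hn64 hL8 hEc hEB
    set b : ℝ := (Nat.card {p : ℕ // p.Prime ∧ n ≤ 4 * p ∧ p ≤ n ∧ ¬ Good E L p} : ℝ) with hb
    -- the second term
    have hG : (2 : ℝ) ^ L * (2 ^ L * (n : ℝ)) / 2 ^ ((n - 1) / (8 * k)) ≤ Z := by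
      set g := (n - 1) / (8 * k) with hg
      have hg1 : n ≤ 8 * k * (g + 1) := by
        have h := Nat.lt_mul_div_succ (n - 1) (show 0 < 8 * k by omega)
        rw [← hg] at h
        have : n - 1 < 8 * k * (g + 1) := h
        omega
      have hg2 : (n : ℝ) ≤ 8 * k * (g + 1) := by exact_mod_cast hg1
      have hX : 8 * (L * Real.log n) < (g : ℝ) + 1 := by
        have h1 : (8 * k : ℝ) * (8 * (L * Real.log n)) < (8 * k) * ((g : ℝ) + 1) := by
          calc _ = 64 * (k * L * Real.log n) := by ring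
            _ < n := hkL
            _ ≤ _ := hg2
        exact lt_of_mul_lt_mul_left h1 (by positivity)
      have hlog2 : 0.69 < Real.log 2 ∧ Real.log 2 < 0.7 :=
        ⟨by have := Real.log_two_gt_d9; linarith, by have := Real.log_two_lt_d9; linarith⟩
      have hX1 : (1 : ℝ) ≤ L * Real.log n := by nlinarith
      have hXL : (L : ℝ) ≤ L * Real.log n := by nlinarith
      have hXn : Real.log n ≤ L * Real.log n := by nlinarith
      have hexp : (2 : ℝ) ^ L * (2 ^ L * (n : ℝ)) * n ≤ 2 ^ g := by
        have e1 : (2 : ℝ) ^ L * (2 ^ L * (n : ℝ)) * n =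
            Real.exp (2 * L * Real.log 2 + 2 * Real.log n) := by
          have a1 : (2 : ℝ) ^ L = Real.exp (L * Real.log 2) := by
            rw [mul_comm, Real.exp_mul, Real.exp_log (by norm_num), Real.rpow_natCast]
          have a2 : (n : ℝ) = Real.exp (Real.log n) := (Real.exp_log hn0).symm
          calc (2 : ℝ) ^ L * (2 ^ L * (n : ℝ)) * n
              = Real.exp (L * Real.log 2) * (Real.exp (L * Real.log 2) * Real.exp (Real.log n)) *
                Real.exp (Real.log n) := by rw [← a1, ← a2]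
            _ = _ := by rw [← Real.exp_add, ← Real.exp_add, ← Real.exp_add]; congr 1; ring
        have e2 : (2 : ℝ) ^ g = Real.exp (g * Real.log 2) := by
          rw [mul_comm, Real.exp_mul, Real.exp_log (by norm_num), Real.rpow_natCast]
        rw [e1, e2]
        refine Real.exp_le_exp.2 ?_
        have b1 : (8 * (L * Real.log n) - 1) * Real.log 2 ≤ g * Real.log 2 :=
          mul_le_mul_of_nonneg_right (by linarith) (by linarith [hlog2.1])
        have b2 : (8 * (L * Real.log n) - 1) * 0.69 ≤ (8 * (L * Real.log n) - 1) * Real.log 2 :=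
          mul_le_mul_of_nonneg_left hlog2.1.le (by linarith)
        have b3 : 2 * (L : ℝ) * Real.log 2 ≤ 2 * L * 0.7 :=
          mul_le_mul_of_nonneg_left hlog2.2.le (by linarith)
        linarith
      have hZn : 1 / (n : ℝ) ≤ Z := by
        rw [hZ]
        refine div_le_div_of_nonneg_right ?_ hn0.le
        have c1 : (1 : ℝ) ≤ k ^ 2 := by nlinarith
        have c2 : (1 : ℝ) ≤ k ^ 2 * L := by nlinarith
        have c3 : (1 : ℝ) ≤ k ^ 2 * L * B := by nlinarith
        nlinarith
      refine le_trans ?_ hZn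
      rw [div_le_div_iff₀ (by positivity) hn0]
      linarith
    -- the first term
    have h1 : 2 * b ≤ 2 * |C1| / c * Z * (types n).card := by
      have hlog0 : 0 < Real.log n := by linarith
      have d1 : b * Real.log n ≤ |C1| * (k ^ 2 * L * B) := by
        calc b * Real.log n ≤ C1 * k ^ 2 * L * B := hbad
          _ = C1 * (k ^ 2 * L * B) := by ring
          _ ≤ |C1| * (k ^ 2 * L * B) :=
              mul_le_mul_of_nonneg_right (le_abs_self C1) (by positivity)
      have d2 : b ≤ |C1| * (k ^ 2 * L * B) / Real.log n := by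
        rw [le_div_iff₀ hlog0]; exact d1
      have d3 : 2 * |C1| / c * Z * (c * n / Real.log n ^ 2) ≤ 2 * |C1| / c * Z * (types n).card :=
        mul_le_mul_of_nonneg_left hcard (by positivity)
      have d4 : 2 * |C1| / c * Z * (c * n / Real.log n ^ 2) =
          2 * (|C1| * (k ^ 2 * L * B) / Real.log n) := by
        rw [hZ]; field_simp
      linarith
    calc _ ≤ _ := hs
      _ ≤ 2 * |C1| / c * Z * (types n).card + (types n).card * Z :=
          add_le_add h1 (mul_le_mul_of_nonneg_left hG htpos.le)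
      _ = (2 * |C1| / c + 1) * Z * (types n).card := by ring
      _ ≤ _ := by
          refine mul_le_mul_of_nonneg_right ?_ htpos.le
          nlinarith

end Pool.Agent.CJB
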