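import Mathlib

/-! Counting residues: some rotation leaves a gap. -/

set_option autoImplicit false

namespace Pool.Agent.CJB

/-- For each `e ∈ E` at most `G` of the `a < p` have `(e + a) % p ≥ p - G`. -/
theorem gap (E : Finset ℕ) (p G : ℕ) (h : E.card * G < p) :
    ∃ a < p, ∀ e ∈ E, (e + a) % p + G < p := by
  classical
  by_contra hcon
  push Not at hcon
  have hp : 0 < p := by omega
  have hcard : ∀ e ∈ E,
      ((Finset.range p).filter (fun a => p ≤ (e + a) % p + G)).card ≤ G := by
    intro e _
    have h1 : ((Finset.range p).filter (fun a => p ≤ (e + a) % p + G)).card ≤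
        (Finset.Ico (p - G) p).card := by
      refine Finset.card_le_card_of_injOn (fun a => (e + a) % p) ?_ ?_
      · intro a ha
        have ha' := (Finset.mem_filter.1 (Finset.mem_coe.1 ha)).2
        have h2 : (e + a) % p < p := Nat.mod_lt _ hp
        have h5 : p - G ≤ (e + a) % p := by omega
        exact Finset.mem_coe.2 (Finset.mem_Ico.2 ⟨h5, h2⟩)
      · intro a ha b hb hab
        have ha' := Finset.mem_range.1 (Finset.mem_filter.1 (Finset.mem_coe.1 ha)).1
        have hb' := Finset.mem_range.1 (Finset.mem_filter.1 (Finset.mem_coe.1 hb)).1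
        have h3 : a ≡ b [MOD p] := Nat.ModEq.add_left_cancel' e hab
        exact Nat.ModEq.eq_of_lt_of_lt h3 ha' hb'
    rw [Nat.card_Ico] at h1
    omega
  have hsub : Finset.range p ⊆
      E.biUnion (fun e => (Finset.range p).filter (fun a => p ≤ (e + a) % p + G)) := by
    intro a ha
    obtain ⟨e, he, h2⟩ := hcon a (Finset.mem_range.1 ha)
    exact Finset.mem_biUnion.2 ⟨e, he, Finset.mem_filter.2 ⟨ha, h2⟩⟩
  have h3 := (Finset.card_le_card hsub).trans Finset.card_biUnion_le
  have h4 := Finset.sum_le_card_nsmul E _ G hcard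
  rw [Finset.card_range] at h3
  rw [smul_eq_mul] at h4
  omega

end Pool.Agent.CJB
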