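import Pool.Agent.CJB.Defs2

/-! The substitution `X_j ↦ X_j^2 + X_j + τ_j` is injective. -/

namespace Pool.Agent.CJB
open Polynomial

namespace INJ

lemma exists_sol {K : Type*} [Field K] [IsAlgClosed K] (r : K) : ∃ s : K, s ^ 2 + s = r := by
  have hd : (X ^ 2 + X - C r : K[X]).degree = 2 := by
    compute_degree!
  obtain ⟨s, hs⟩ := IsAlgClosed.exists_root (X ^ 2 + X - C r : K[X]) (by rw [hd]; norm_num)
  refine ⟨s, ?_⟩
  have h1 : eval s (X ^ 2 + X - C r : K[X]) = 0 := hs
  simp only [eval_sub, eval_add, eval_pow, eval_X, eval_C] at h1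
  linear_combination h1

end INJ

theorem inj_as {l : ℕ} (τ : Fin l → ZMod 2) (V : MvPolynomial (Fin l) (ZMod 2)) (hV : V ≠ 0) :
    MvPolynomial.aeval (fun j => (MvPolynomial.X j ^ 2 + MvPolynomial.X j + MvPolynomial.C (τ j) :
      MvPolynomial (Fin l) (ZMod 2))) V ≠ 0 := by
  haveI : Fact (Nat.Prime 2) := ⟨Nat.prime_two⟩
  let K := AlgebraicClosure (ZMod 2)
  haveI : Infinite K := IsAlgClosed.instInfinite
  have h1 : MvPolynomial.map (algebraMap (ZMod 2) K) V ≠ 0 := by
    intro h0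
    apply hV
    apply MvPolynomial.map_injective _ (algebraMap (ZMod 2) K).injective
    rw [h0, map_zero]
  obtain ⟨ρ, hρ⟩ : ∃ ρ : Fin l → K, MvPolynomial.eval ρ (MvPolynomial.map (algebraMap (ZMod 2) K) V) ≠ 0 := by
    by_contra hcon
    push Not at hcon
    apply h1
    apply MvPolynomial.funext
    intro x
    rw [hcon x, map_zero]
  have h2 : ∀ j, ∃ s : K, s ^ 2 + s = ρ j - algebraMap (ZMod 2) K (τ j) := fun j => INJ.exists_sol _
  choose s hs using h2
  intro h0
  apply hρ
  have h3 : MvPolynomial.aeval s (MvPolynomial.aeval (fun j => (MvPolynomial.X j ^ 2 + MvPolynomial.X j + MvPolynomial.C (τ j) :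
      MvPolynomial (Fin l) (ZMod 2))) V) = MvPolynomial.aeval ρ V := by
    have h4 : (MvPolynomial.aeval s).comp (MvPolynomial.aeval (fun j => (MvPolynomial.X j ^ 2 + MvPolynomial.X j + MvPolynomial.C (τ j) :
      MvPolynomial (Fin l) (ZMod 2)))) = (MvPolynomial.aeval ρ : MvPolynomial (Fin l) (ZMod 2) →ₐ[ZMod 2] K) := by
      apply MvPolynomial.algHom_ext
      intro j
      rw [AlgHom.comp_apply, MvPolynomial.aeval_X, MvPolynomial.aeval_X]
      simp only [map_add, map_pow, MvPolynomial.aeval_X, MvPolynomial.aeval_C]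
      rw [hs j]; ring
    rw [← h4]; rfl
  rw [h0, map_zero] at h3
  rw [MvPolynomial.eval_map, ← MvPolynomial.aeval_def]
  exact h3.symm

end Pool.Agent.CJB
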