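import Pool.Agent.CJB.Defs2

/-! Characteristic 2: conjugates and traces of `s^2 + s + t`   (helper96) -/

namespace Pool.Agent.CJB
open Polynomial

/-- conjugates of idempotent elements -/
theorem val_as_pow {S : Type*} [CommRing S] {t : S} (ht : t ^ 2 = t) (e : ℕ) : t ^ 2 ^ e = t := by
  induction e with
  | zero => rw [pow_zero, pow_one]
  | succ e ih => rw [pow_succ, pow_mul, ih, ht]

/-- conjugates -/
theorem val_as_conj {S : Type*} [CommRing S] [CharP S 2] (s t : S) (ht : t ^ 2 = t) (e : ℕ) :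
    (s ^ 2 + s + t) ^ 2 ^ e = s ^ 2 ^ (e + 1) + s ^ 2 ^ e + t := by
  have : Fact (Nat.Prime 2) := ⟨Nat.prime_two⟩
  rw [add_pow_char_pow, add_pow_char_pow, val_as_pow ht, ← pow_mul, pow_succ' 2 e]

/-- traces -/
theorem val_as_trace {S : Type*} [CommRing S] [CharP S 2] (s t : S) (ht : t ^ 2 = t) (m : ℕ) :
    ∑ i ∈ Finset.range m, (s ^ 2 + s + t) ^ 2 ^ i = s ^ 2 ^ m + s ^ 2 ^ 0 + (m : S) * t := by
  induction m with
  | zero =>
    rw [Finset.range_zero, Finset.sum_empty, CharTwo.add_self_eq_zero, Nat.cast_zero, zero_mul,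
      add_zero]
  | succ m ih =>
    rw [Finset.sum_range_succ, ih, val_as_conj s t ht]
    have h : s ^ 2 ^ m + s ^ 2 ^ m = 0 := CharTwo.add_self_eq_zero _
    push_cast
    linear_combination h

theorem val_as {S : Type*} [CommRing S] [CharP S 2] (s t : ℕ → S) (ht : ∀ j, t j ^ 2 = t j)
    (c : Gate) :
    Gate.val (fun j => s j ^ 2 + s j + t j) c =
      s c.base ^ 2 ^ c.hi + s c.base ^ 2 ^ c.lo + (c.par : S) * t c.base := by
  cases c with
  | conj j e =>
    change (s j ^ 2 + s j + t j) ^ 2 ^ e = s j ^ 2 ^ (e + 1) + s j ^ 2 ^ e + ((1 : ℕ) : S) * t j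
    rw [val_as_conj (s j) (t j) (ht j), Nat.cast_one, one_mul]
  | trace j m =>
    exact val_as_trace (s j) (t j) (ht j) m

end Pool.Agent.CJB
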