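import Pool.Agent.CJB.CLU
import Pool.Agent.CJB.FRM
import Pool.Agent.CJB.GAP
import Pool.Agent.CJB.ASP
import Pool.Agent.CJB.VAL
import Pool.Agent.CJB.INJ

/-! The number of zeros of the formal value of a test in a finite field. -/

namespace Pool.Agent.CJB
open Polynomial

theorem totalDegree_aeval_le {σ τ : Type} (f : σ → MvPolynomial τ (ZMod 2)) (D : ℕ)
    (hf : ∀ i, (f i).totalDegree ≤ D) (P : MvPolynomial σ (ZMod 2)) :
    (MvPolynomial.aeval f P).totalDegree ≤ P.totalDegree * D := by
  classical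
  rw [MvPolynomial.aeval_def, MvPolynomial.eval₂_eq]
  refine (MvPolynomial.totalDegree_finsetSum _ _).trans (Finset.sup_le fun m hm => ?_)
  refine (MvPolynomial.totalDegree_mul _ _).trans ?_
  have h1 : ((algebraMap (ZMod 2) (MvPolynomial τ (ZMod 2))) (MvPolynomial.coeff m P)).totalDegree
      = 0 := by
    rw [MvPolynomial.algebraMap_eq, MvPolynomial.totalDegree_C]
  rw [h1, zero_add]
  refine (MvPolynomial.totalDegree_finsetProd _ _).trans ?_
  calc ∑ i ∈ m.support, ((f i) ^ m i).totalDegree ≤ ∑ i ∈ m.support, m i * D :=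
        Finset.sum_le_sum fun i _ =>
          (MvPolynomial.totalDegree_pow _ _).trans (Nat.mul_le_mul_left _ (hf i))
    _ = (∑ i ∈ m.support, m i) * D := by rw [Finset.sum_mul]
    _ ≤ P.totalDegree * D := Nat.mul_le_mul_right _ (MvPolynomial.le_totalDegree hm)

/-- base elements from a tuple -/
noncomputable def ext {S : Type*} [Zero S] {R : ℕ} (s : Fin (R + 1) → S) : ℕ → S :=
  fun j => if h : j < R + 1 then s ⟨j, h⟩ else 0

theorem map_gate {S S' : Type*} [CommRing S] [CommRing S'] (φ : S →+* S') (y : ℕ → S) (c : Gate) :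
    φ (Gate.val y c) = Gate.val (fun j => φ (y j)) c := by
  cases c with
  | conj j e => simp [Gate.val]
  | trace j m => simp [Gate.val]

theorem map_value {S S' : Type*} [CommRing S] [CommRing S'] [Algebra (ZMod 2) S]
    [Algebra (ZMod 2) S'] (φ : S →ₐ[ZMod 2] S') (y : ℕ → S) (gs : List Gate)
    (P : MvPolynomial ℕ (ZMod 2)) :
    φ (value y gs P) = value (fun j => φ (y j)) gs P := by
  unfold value
  rw [← AlgHom.comp_apply, MvPolynomial.comp_aeval]
  congr 2
  funext i
  simp only [List.getD_eq_getElem?_getD, List.getElem?_map]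
  cases h : gs[i]? with
  | none => simp
  | some c => simpa using map_gate (φ : S →+* S') y c

theorem aeval_fval {S : Type*} [CommRing S] [Algebra (ZMod 2) S] {R : ℕ} (ρ : Fin (R + 1) → S)
    (gs : List Gate) (P : MvPolynomial ℕ (ZMod 2)) :
    MvPolynomial.aeval ρ (fval R gs P) = value (ext ρ) gs P := by
  unfold fval
  rw [map_value]
  congr 1
  funext j
  unfold fenv ext
  split_ifs with h
  · simp
  · simp

/-- the test polynomial in the variables of the existing gates -/
noncomputable def P1 (gs : List Gate) (P : MvPolynomial ℕ (ZMod 2)) :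
    MvPolynomial (Fin gs.length) (ZMod 2) :=
  MvPolynomial.aeval (fun i => if h : i < gs.length then MvPolynomial.X ⟨i, h⟩ else 0) P

theorem value_P1 {S : Type*} [CommRing S] [Algebra (ZMod 2) S] (y : ℕ → S) (gs : List Gate)
    (P : MvPolynomial ℕ (ZMod 2)) :
    value y gs P = MvPolynomial.aeval (fun i : Fin gs.length => Gate.val y (gs.get i)) (P1 gs P) := by
  unfold value P1
  rw [← AlgHom.comp_apply, MvPolynomial.comp_aeval]
  congr 2
  funext i
  split_ifs with h
  · simp [List.getD_eq_getElem?_getD, h]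
  · simp [List.getD_eq_getElem?_getD, not_lt.mp h]

theorem totalDegree_P1 (gs : List Gate) (P : MvPolynomial ℕ (ZMod 2)) :
    (P1 gs P).totalDegree ≤ P.totalDegree := by
  have := totalDegree_aeval_le (τ := Fin gs.length)
    (fun i : ℕ => if h : i < gs.length then MvPolynomial.X ⟨i, h⟩ else 0) 1 (fun i => by
      split_ifs with h
      · exact (MvPolynomial.totalDegree_X _).le
      · simp) P
  simpa [P1] using this

section
variable {R : ℕ} (gs : List Gate) (hb : ∀ c ∈ gs, c.base ≤ R)

/-- base of a variable -/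
def bas (hb : ∀ c ∈ gs, c.base ≤ R) (z : Fin gs.length × Bool) : Fin (R + 1) :=
  ⟨(gs.get z.1).base, Nat.lt_succ_of_le (hb _ (List.get_mem _ _))⟩

/-- exponent of a variable -/
def eps (z : Fin gs.length × Bool) : ℕ :=
  if z.2 then (gs.get z.1).hi else (gs.get z.1).lo

/-- the test polynomial after the substitution -/
noncomputable def P2 (hb : ∀ c ∈ gs, c.base ≤ R) (τ : Fin (R + 1) → ZMod 2)
    (P : MvPolynomial ℕ (ZMod 2)) : MvPolynomial (Fin gs.length × Bool) (ZMod 2) :=
  MvPolynomial.aeval (fun i : Fin gs.length =>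
    MvPolynomial.X (i, true) + MvPolynomial.X (i, false) +
      MvPolynomial.C (((gs.get i).par : ZMod 2) * τ (bas gs hb (i, true)))) (P1 gs P)

theorem totalDegree_P2 (τ : Fin (R + 1) → ZMod 2) (P : MvPolynomial ℕ (ZMod 2)) :
    (P2 gs hb τ P).totalDegree ≤ P.totalDegree := by
  have h := totalDegree_aeval_le (τ := Fin gs.length × Bool) (fun i : Fin gs.length =>
    MvPolynomial.X (i, true) + MvPolynomial.X (i, false) +
      MvPolynomial.C (((gs.get i).par : ZMod 2) * τ (bas gs hb (i, true)))) 1 (fun i => by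
      refine (MvPolynomial.totalDegree_add _ _).trans
        (max_le ?_ (by rw [MvPolynomial.totalDegree_C]; exact Nat.zero_le _))
      refine (MvPolynomial.totalDegree_add _ _).trans (max_le ?_ ?_) <;>
      exact (MvPolynomial.totalDegree_X _).le) (P1 gs P)
  rw [mul_one] at h
  exact h.trans (totalDegree_P1 gs P)

theorem eps_mem (z : Fin gs.length × Bool) : eps gs z ∈ exps gs := by
  unfold eps exps
  rw [List.mem_toFinset, List.mem_append]
  split_ifs
  · exact Or.inl (List.mem_map_of_mem (List.get_mem _ _))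
  · exact Or.inr (List.mem_map_of_mem (List.get_mem _ _))

theorem aeval_as {S : Type*} [CommRing S] [Algebra (ZMod 2) S] [CharP S 2]
    (s : Fin (R + 1) → S) (τ : Fin (R + 1) → ZMod 2) (P : MvPolynomial ℕ (ZMod 2)) :
    MvPolynomial.aeval (fun j => s j ^ 2 + s j + algebraMap (ZMod 2) S (τ j)) (fval R gs P) =
      MvPolynomial.aeval (fun z => s (bas gs hb z) ^ 2 ^ eps gs z) (P2 gs hb τ P) := by
  rw [aeval_fval, value_P1]
  unfold P2
  rw [← AlgHom.comp_apply, MvPolynomial.comp_aeval]
  congr 2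
  funext i
  set c := gs.get i with hc
  have hc' : c.base < R + 1 := Nat.lt_succ_of_le (hb _ (List.get_mem _ _))
  have h1 : Gate.val (ext fun j => s j ^ 2 + s j + algebraMap (ZMod 2) S (τ j)) c =
      Gate.val (fun j => ext s j ^ 2 + ext s j + ext (fun j => algebraMap (ZMod 2) S (τ j)) j) c := by
    congr 1
    funext j
    unfold ext
    split_ifs <;> simp
  rw [h1, val_as (ext s) (ext fun j => algebraMap (ZMod 2) S (τ j)) (fun j => by
    unfold ext
    split_ifs with h
    · rw [← map_pow]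
      congr 1
      have : ∀ x : ZMod 2, x ^ 2 = x := by decide
      exact this _
    · simp)]
  simp only [map_add, MvPolynomial.aeval_X, MvPolynomial.aeval_C, map_mul, map_natCast]
  have e1 : ext s c.base = s (bas gs hb (i, true)) := by
    unfold ext bas
    rw [dif_pos hc']
  have e2 : ext (fun j => algebraMap (ZMod 2) S (τ j)) c.base =
      algebraMap (ZMod 2) S (τ (bas gs hb (i, true))) := by
    unfold ext bas
    rw [dif_pos hc']
  have e3 : bas gs hb (i, false) = bas gs hb (i, true) := rfl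
  rw [e1, e2, e3]
  simp [eps, hc, List.get_eq_getElem]

end

/-- powers of Frobenius only depend on the exponent modulo `p` -/
theorem frob_mod {F : Type} [Field F] [Fintype F] (p : ℕ) (hF : Fintype.card F = 2 ^ p) (x : F)
    (m : ℕ) : x ^ 2 ^ m = x ^ 2 ^ (m % p) := by
  have h : ∀ j : ℕ, x ^ 2 ^ (m % p + p * j) = x ^ 2 ^ (m % p) := by
    intro j
    induction j with
    | zero => simp
    | succ j ih =>
      rw [Nat.mul_succ, ← add_assoc, pow_add, pow_mul, ih]
      rw [← pow_mul, mul_comm, pow_mul, ← hF, FiniteField.pow_card]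
  conv_lhs => rw [← Nat.mod_add_div m p]
  exact h _

theorem frob_congr {F : Type} [Field F] [Fintype F] (p : ℕ) (hF : Fintype.card F = 2 ^ p) (x : F)
    (m m' : ℕ) (h : m % p = m' % p) : x ^ 2 ^ m = x ^ 2 ^ m' := by
  rw [frob_mod p hF, h, ← frob_mod p hF]

/-- Schwartz-Zippel over a finite field -/
theorem zippel {F : Type} [Field F] [Fintype F] [Algebra (ZMod 2) F] {l : ℕ}
    (V : MvPolynomial (Fin l) (ZMod 2)) (hV : V ≠ 0) :
    Nat.card {s : Fin l → F // MvPolynomial.aeval s V = 0} * Fintype.card F ≤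
      V.totalDegree * Fintype.card F ^ l := by
  classical
  set V' := MvPolynomial.map (algebraMap (ZMod 2) F) V with hV'
  have hinj : Function.Injective (algebraMap (ZMod 2) F) := (algebraMap (ZMod 2) F).injective
  have hne : V' ≠ 0 := by
    rw [hV']
    intro h
    exact hV (MvPolynomial.map_injective (algebraMap (ZMod 2) F) hinj (by simpa using h))
  have htd : V'.totalDegree ≤ V.totalDegree := by
    rw [hV']
    refine Finset.sup_mono ?_
    exact MvPolynomial.support_map_subset (algebraMap (ZMod 2) F) V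
  have key := MvPolynomial.schwartz_zippel_totalDegree hne (Finset.univ : Finset F)
  rw [Finset.card_univ] at key
  have hF : (0 : ℚ≥0) < Fintype.card F := by exact_mod_cast Fintype.card_pos
  rw [div_le_div_iff₀ (by positivity) hF] at key
  have hcard : Nat.card {s : Fin l → F // MvPolynomial.aeval s V = 0} =
      (Finset.filter (fun f => MvPolynomial.eval f V' = 0)
        (Fintype.piFinset fun _ : Fin l => (Finset.univ : Finset F))).card := by
    rw [Nat.card_eq_fintype_card, Fintype.card_subtype]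
    congr 1
    ext f
    simp [hV', MvPolynomial.eval_map, MvPolynomial.aeval_def]
  rw [hcard]
  have : ((Finset.filter (fun f => MvPolynomial.eval f V' = 0)
        (Fintype.piFinset fun _ : Fin l => (Finset.univ : Finset F))).card * Fintype.card F : ℕ) ≤
      V'.totalDegree * Fintype.card F ^ l := by exact_mod_cast key
  exact this.trans (Nat.mul_le_mul_right _ htd)

theorem charP_two (F : Type) [Field F] [Algebra (ZMod 2) F] : CharP F 2 :=
  charP_of_injective_algebraMap (algebraMap (ZMod 2) F).injective 2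

/-- zeros for a fixed `τ` -/
theorem zeros_tau {R L G p : ℕ} (F : Type) [Field F] [Fintype F] [Algebra (ZMod 2) F]
    (hF : Fintype.card F = 2 ^ p) (gs : List Gate) (P : MvPolynomial ℕ (ZMod 2))
    (hb : ∀ c ∈ gs, c.base ≤ R) (hgood : Good (exps gs) L p) (hG : (exps gs).card * G < p)
    (hGp : G < p) (hP : P.totalDegree ≤ 2 ^ L) (hV : fval R gs P ≠ 0) (τ : Fin (R + 1) → ZMod 2) :
    Nat.card {s : Fin (R + 1) → F //
      MvPolynomial.aeval (fun j => s j ^ 2 + s j + algebraMap (ZMod 2) F (τ j))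
        (fval R gs P) = 0} * 2 ^ (G + 1) ≤ 2 ^ L * (2 ^ p) ^ (R + 1) := by
  classical
  haveI := charP_two F
  haveI : CharP (MvPolynomial (Fin (R + 1)) (ZMod 2)) 2 :=
    charP_of_injective_algebraMap (MvPolynomial.C_injective _ _) 2
  obtain ⟨a, hap, ha⟩ := gap (exps gs) p G hG
  set ε := eps gs with hε
  set ε' : Fin gs.length × Bool → ℕ := fun z => (ε z + a) % p with hε'
  set Q := P2 gs hb τ P with hQ
  have hp0 : 0 < p := lt_of_le_of_lt (Nat.zero_le _) hap
  -- the true formal polynomial is nonzero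
  have h1 : MvPolynomial.aeval (fun z => (MvPolynomial.X (bas gs hb z) :
      MvPolynomial (Fin (R + 1)) (ZMod 2)) ^ 2 ^ ε z) Q ≠ 0 := by
    have := aeval_as gs hb (S := MvPolynomial (Fin (R + 1)) (ZMod 2)) MvPolynomial.X τ P
    rw [← this]
    exact inj_as τ _ hV
  -- the reduced one too
  set V' := MvPolynomial.aeval (fun z => (MvPolynomial.X (bas gs hb z) :
      MvPolynomial (Fin (R + 1)) (ZMod 2)) ^ 2 ^ ε' z) Q with hV'
  have h2 : V' ≠ 0 := by
    intro h
    refine h1 (formal (fun S ε ε' L H u hu h0 => cluster S ε ε' L H u hu h0) Q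
      (bas gs hb) ε ε' L ((totalDegree_P2 gs hb τ P).trans hP) ?_ h)
    intro z z' hzz hzL
    have hg := hgood (ε z) (eps_mem gs z) (ε z') (eps_mem gs z') (ε' z' - ε' z) (by omega)
    have hd : (p : ℤ) ∣ (ε z' : ℤ) - ε z - ((ε' z' - ε' z : ℕ) : ℤ) := by
      have e1 : ((ε' z' - ε' z : ℕ) : ℤ) = (ε' z' : ℤ) - ε' z := by
        push_cast [Nat.cast_sub hzz]; ring
      rw [e1]
      simp only [hε']
      have e2 := Int.emod_add_mul_ediv ((ε z' : ℤ) + a) p
      have e3 := Int.emod_add_mul_ediv ((ε z : ℤ) + a) p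
      refine ⟨((ε z' : ℤ) + a) / p - ((ε z : ℤ) + a) / p, ?_⟩
      push_cast
      linear_combination (-1 : ℤ) * e2 + e3
    have := hg hd
    omega
  -- degree
  have h3 : V'.totalDegree ≤ 2 ^ L * 2 ^ (p - G - 1) := by
    refine (totalDegree_aeval_le _ (2 ^ (p - G - 1)) (fun z => ?_) Q).trans
      (Nat.mul_le_mul_right _ ((totalDegree_P2 gs hb τ P).trans hP))
    rw [MvPolynomial.totalDegree_X_pow]
    refine Nat.pow_le_pow_right (by norm_num) ?_
    have := ha _ (eps_mem gs z)
    simp only [hε', hε]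
    omega
  -- the zeros
  have hz := zippel (F := F) V' h2
  have hle : Nat.card {s : Fin (R + 1) → F //
      MvPolynomial.aeval (fun j => s j ^ 2 + s j + algebraMap (ZMod 2) F (τ j))
        (fval R gs P) = 0} ≤ Nat.card {s : Fin (R + 1) → F // MvPolynomial.aeval s V' = 0} := by
    refine Nat.card_le_card_of_injective
      (fun s => ⟨fun j => s.1 j ^ 2 ^ (p - a), ?_⟩) ?_
    · have hs := s.2
      rw [aeval_as gs hb] at hs
      rw [hV', ← AlgHom.comp_apply, MvPolynomial.comp_aeval]
      refine Eq.trans ?_ hs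
      congr 2
      funext z
      simp only [map_pow, MvPolynomial.aeval_X]
      rw [← pow_mul, ← pow_add]
      refine frob_congr p hF _ _ _ ?_
      simp only [hε']
      rw [Nat.add_mod, Nat.mod_mod, ← Nat.add_mod]
      have : p - a + (ε z + a) = ε z + p := by omega
      rw [this, Nat.add_mod_right]
    · intro s s' h
      apply Subtype.ext
      funext j
      have hj := congrFun (congrArg Subtype.val h) j
      simp only at hj
      exact iterateFrobenius_inj F 2 (p - a) (by simpa [iterateFrobenius_def] using hj)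
  rw [hF] at hz
  have h2p : 2 ^ L * 2 ^ (p - G - 1) * 2 ^ (G + 1) = 2 ^ L * 2 ^ p := by
    rw [mul_assoc, ← pow_add]
    congr 2
    omega
  set c := Nat.card {s : Fin (R + 1) → F // MvPolynomial.aeval s V' = 0} with hc
  have h4 : c * 2 ^ (G + 1) * 2 ^ p ≤ 2 ^ L * (2 ^ p) ^ (R + 1) * 2 ^ p := by
    calc c * 2 ^ (G + 1) * 2 ^ p = c * 2 ^ p * 2 ^ (G + 1) := by ring
      _ ≤ V'.totalDegree * (2 ^ p) ^ (R + 1) * 2 ^ (G + 1) := Nat.mul_le_mul_right _ hz
      _ ≤ 2 ^ L * 2 ^ (p - G - 1) * (2 ^ p) ^ (R + 1) * 2 ^ (G + 1) :=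
          Nat.mul_le_mul_right _ (Nat.mul_le_mul_right _ h3)
      _ = 2 ^ L * 2 ^ (p - G - 1) * 2 ^ (G + 1) * (2 ^ p) ^ (R + 1) := by ring
      _ = 2 ^ L * (2 ^ p) ^ (R + 1) * 2 ^ p := by rw [h2p]; ring
  have h5 : c * 2 ^ (G + 1) ≤ 2 ^ L * (2 ^ p) ^ (R + 1) :=
    Nat.le_of_mul_le_mul_right h4 (by positivity)
  exact (Nat.mul_le_mul_right _ hle).trans h5

/-- the number of zeros of the formal value of a test in `F^(R+1)` -/
theorem zeros {R L G p : ℕ} (hp : Odd p) (F : Type) [Field F] [Fintype F] [Algebra (ZMod 2) F]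
    (hF : Fintype.card F = 2 ^ p) (gs : List Gate) (P : MvPolynomial ℕ (ZMod 2))
    (hb : ∀ c ∈ gs, c.base ≤ R) (hgood : Good (exps gs) L p) (hG : (exps gs).card * G < p)
    (hGp : G < p) (hP : P.totalDegree ≤ 2 ^ L) (hV : fval R gs P ≠ 0) :
    Nat.card {ρ : Fin (R + 1) → F // MvPolynomial.aeval ρ (fval R gs P) = 0} * 2 ^ (G + 1) ≤
      2 ^ L * (2 ^ p) ^ (R + 1) := by
  classical
  have h1 := asparam p (R + 1) hp F hF
    (fun ρ => MvPolynomial.aeval ρ (fval R gs P) = 0)
  -- count pairs by the second component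
  have h2 : Nat.card {s : (Fin (R + 1) → F) × (Fin (R + 1) → ZMod 2) //
      MvPolynomial.aeval (fun j => s.1 j ^ 2 + s.1 j + algebraMap (ZMod 2) F (s.2 j))
        (fval R gs P) = 0} = ∑ τ : Fin (R + 1) → ZMod 2, Nat.card {s : Fin (R + 1) → F //
      MvPolynomial.aeval (fun j => s j ^ 2 + s j + algebraMap (ZMod 2) F (τ j))
        (fval R gs P) = 0} := by
    rw [← Nat.card_sigma]
    refine Nat.card_congr
      { toFun := fun s => ⟨s.1.2, s.1.1, s.2⟩
        invFun := fun s => ⟨(s.2.1, s.1), s.2.2⟩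
        left_inv := fun s => rfl
        right_inv := fun s => rfl }
  rw [h2] at h1
  have h3 : (∑ τ : Fin (R + 1) → ZMod 2, Nat.card {s : Fin (R + 1) → F //
      MvPolynomial.aeval (fun j => s j ^ 2 + s j + algebraMap (ZMod 2) F (τ j))
        (fval R gs P) = 0}) * 2 ^ (G + 1) ≤ 2 ^ (R + 1) * (2 ^ L * (2 ^ p) ^ (R + 1)) := by
    rw [Finset.sum_mul]
    refine (Finset.sum_le_sum fun τ _ =>
      zeros_tau F hF gs P hb hgood hG hGp hP hV τ).trans ?_
    rw [Finset.sum_const, Finset.card_univ]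
    simp [ZMod.card]
  have h4 : Nat.card {ρ : Fin (R + 1) → F // MvPolynomial.aeval ρ (fval R gs P) = 0} *
      2 ^ (G + 1) * 2 ^ (R + 1) ≤ 2 ^ L * (2 ^ p) ^ (R + 1) * 2 ^ (R + 1) := by
    calc _ = Nat.card {ρ : Fin (R + 1) → F // MvPolynomial.aeval ρ (fval R gs P) = 0} *
          2 ^ (R + 1) * 2 ^ (G + 1) := by ring
      _ ≤ _ := Nat.mul_le_mul_right _ h1
      _ ≤ _ := h3
      _ = _ := by ring
  exact Nat.le_of_mul_le_mul_right h4 (by positivity)

end Pool.Agent.CJB
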